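import Pool.Agent.Helper72.BQ.Defs

/-! # BQ, module Q8a (MP_3dd6d4_an, helper54): Wendel bounds for the Pochhammer ratio -/

set_option autoImplicit false

open MeasureTheory Complex FourierTransform Filter Topology
open scoped ENNReal NNReal ComplexConjugate

noncomputable section

namespace Helper72.BQ.P

open Helper72.BA Helper85.BP Helper72.BQ

lemma prod_gamma (a : ℝ) (ha : 0 < a) (n : ℕ) :
    ∏ i ∈ Finset.range n, (a + i) = Real.Gamma (a + n) / Real.Gamma a := by
  have hG : Real.Gamma a ≠ 0 := (Real.Gamma_pos_of_pos ha).ne'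
  induction n with
  | zero => simp [hG]
  | succ n ih =>
    rw [Finset.prod_range_succ, ih]
    have h1 : a + ((n + 1 : ℕ) : ℝ) = (a + n) + 1 := by push_cast; ring
    have h2 : a + (n:ℝ) ≠ 0 := by positivity
    rw [h1, Real.Gamma_add_one h2]
    ring

/-- Wendel, upper bound -/
lemma wendel_upper (x s : ℝ) (hx : 0 < x) (hs0 : 0 ≤ s) (hs1 : s < 1) :
    Real.Gamma (x + s) ≤ x ^ s * Real.Gamma x := by
  have hG : 0 < Real.Gamma x := Real.Gamma_pos_of_pos hx
  rcases hs0.eq_or_lt with h | h
  · subst h; simp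
  · have h1 := Real.Gamma_mul_add_mul_le_rpow_Gamma_mul_rpow_Gamma (s := x) (t := x + 1)
      (a := 1 - s) (b := s) hx (by linarith) (by linarith) h (by ring)
    have h2 : (1 - s) * x + s * (x + 1) = x + s := by ring
    rw [h2, Real.Gamma_add_one hx.ne', Real.mul_rpow hx.le hG.le] at h1
    calc Real.Gamma (x + s) ≤ Real.Gamma x ^ (1 - s) * (x ^ s * Real.Gamma x ^ s) := h1
      _ = x ^ s * (Real.Gamma x ^ (1 - s) * Real.Gamma x ^ s) := by ring
      _ = x ^ s * Real.Gamma x := by
        rw [← Real.rpow_add hG]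
        simp

/-- Wendel, lower bound -/
lemma wendel_lower (x s : ℝ) (hx : 0 < x) (hs0 : 0 ≤ s) (hs1 : s < 1) :
    x ^ s * (x / (x + s)) ^ (1 - s) * Real.Gamma x ≤ Real.Gamma (x + s) := by
  have hG : 0 < Real.Gamma x := Real.Gamma_pos_of_pos hx
  rcases hs0.eq_or_lt with h | h
  · subst h
    simp [hx.ne']
  · have hxs : 0 < x + s := by linarith
    have hG' : 0 < Real.Gamma (x + s) := Real.Gamma_pos_of_pos hxs
    have h1 := Real.Gamma_mul_add_mul_le_rpow_Gamma_mul_rpow_Gamma (s := x + s) (t := x + s + 1)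
      (a := s) (b := 1 - s) hxs (by linarith) h (by linarith) (by ring)
    have h2 : s * (x + s) + (1 - s) * (x + s + 1) = x + 1 := by ring
    rw [h2, Real.Gamma_add_one hx.ne', Real.Gamma_add_one hxs.ne',
      Real.mul_rpow hxs.le hG'.le] at h1
    have h3 : Real.Gamma (x + s) ^ s * ((x + s) ^ (1 - s) * Real.Gamma (x + s) ^ (1 - s)) =
        (x + s) ^ (1 - s) * Real.Gamma (x + s) := by
      calc _ = (x + s) ^ (1 - s) * (Real.Gamma (x + s) ^ s * Real.Gamma (x + s) ^ (1 - s)) := by
            ring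
        _ = _ := by
          rw [← Real.rpow_add hG']
          simp
    rw [h3] at h1
    have h4 : 0 < (x + s) ^ (1 - s) := by positivity
    have h5 : x ^ s * (x / (x + s)) ^ (1 - s) = x / (x + s) ^ (1 - s) := by
      rw [Real.div_rpow hx.le hxs.le, mul_div_assoc', ← Real.rpow_add hx]
      simp
    rw [h5, div_mul_eq_mul_div, div_le_iff₀ h4]
    linarith

theorem poch_ratio (p : ℝ) (hp : 2 ≤ p) (n : ℕ) (hn : 1 ≤ n) :
    Ap p * (n:ℝ) ^ (1 - 2 / p) * Real.exp (-((1 - 2 / p) / n)) ≤
      (∏ i ∈ Finset.range n, ((1 - 1 / p) + i)) / (∏ i ∈ Finset.range n, (1 / p + i)) ∧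
    (∏ i ∈ Finset.range n, ((1 - 1 / p) + i)) / (∏ i ∈ Finset.range n, (1 / p + i)) ≤
      Ap p * (n:ℝ) ^ (1 - 2 / p) * Real.exp ((1 - 2 / p) / n) := by
  have hp0 : 0 < p := by linarith
  have hn' : (0:ℝ) < n := by exact_mod_cast hn
  have hip : 0 < 1 / p := by positivity
  have hip2 : 1 / p ≤ 1 / 2 := one_div_le_one_div_of_le (by norm_num) hp
  have h2p : 2 / p = 2 * (1 / p) := by ring
  set a : ℝ := 1 / p with ha
  set s : ℝ := 1 - 2 / p with hs
  have hs' : s = 1 - 2 * a := by rw [hs, h2p]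
  have hs0 : 0 ≤ s := by rw [hs']; linarith
  have hs1 : s < 1 := by rw [hs']; linarith
  set x : ℝ := n + a with hx
  have hx0 : 0 < x := by positivity
  have hnx : (n:ℝ) ≤ x := by rw [hx]; linarith
  have hxs : 0 < x + s := by linarith
  have hGx : 0 < Real.Gamma x := Real.Gamma_pos_of_pos hx0
  have hGa : 0 < Real.Gamma a := Real.Gamma_pos_of_pos hip
  have hGb : 0 < Real.Gamma (1 - a) := Real.Gamma_pos_of_pos (by linarith)
  have hA : Ap p = Real.Gamma a / Real.Gamma (1 - a) := rfl
  have hA0 : 0 < Ap p := by rw [hA]; positivity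
  have e1 : (∏ i ∈ Finset.range n, ((1 - a) + i)) / (∏ i ∈ Finset.range n, (a + i)) =
      Ap p * (Real.Gamma (x + s) / Real.Gamma x) := by
    rw [prod_gamma (1 - a) (by linarith) n, prod_gamma a hip n, hA]
    have e2 : 1 - a + (n:ℝ) = x + s := by rw [hx, hs']; ring
    have e3 : a + (n:ℝ) = x := by rw [hx]; ring
    rw [e2, e3]
    field_simp
  rw [e1]
  constructor
  · rw [mul_assoc]
    apply mul_le_mul_of_nonneg_left _ hA0.le
    rw [le_div_iff₀ hGx]
    refine le_trans ?_ (wendel_lower x s hx0 hs0 hs1)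
    apply mul_le_mul_of_nonneg_right _ hGx.le
    have h1 : (n:ℝ) ^ s ≤ x ^ s := Real.rpow_le_rpow hn'.le hnx hs0
    have h2 : Real.exp (-(s / n)) ≤ (x / (x + s)) ^ (1 - s) := by
      rw [Real.rpow_def_of_pos (by positivity)]
      apply Real.exp_le_exp.2
      have h3 : Real.log (x / (x + s)) = - Real.log ((x + s) / x) := by
        rw [← Real.log_inv, inv_div]
      have h4 : Real.log ((x + s) / x) ≤ s / x := by
        have := Real.log_le_sub_one_of_pos (x := (x + s) / x) (by positivity)
        have h5 : (x + s) / x - 1 = s / x := by field_simp; ring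
        linarith
      have h5 : s / x ≤ s / n := div_le_div_of_nonneg_left hs0 hn' hnx
      have h6 : 0 ≤ Real.log ((x + s) / x) := by
        apply Real.log_nonneg
        rw [le_div_iff₀ hx0]
        linarith
      rw [h3]
      nlinarith
    exact mul_le_mul h1 h2 (Real.exp_pos _).le (by positivity)
  · rw [mul_assoc]
    apply mul_le_mul_of_nonneg_left _ hA0.le
    rw [div_le_iff₀ hGx]
    refine le_trans (wendel_upper x s hx0 hs0 hs1) ?_
    apply mul_le_mul_of_nonneg_right _ hGx.le
    have h1 : x = n * (1 + a / n) := by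
      rw [hx]; field_simp
    rw [h1, Real.mul_rpow hn'.le (by positivity)]
    apply mul_le_mul_of_nonneg_left _ (by positivity)
    have h2 : 1 + a / n ≤ Real.exp (a / n) := by
      have := Real.add_one_le_exp (a / (n:ℝ))
      linarith
    calc (1 + a / n) ^ s ≤ (Real.exp (a / n)) ^ s := Real.rpow_le_rpow (by positivity) h2 hs0
      _ = Real.exp (a / n * s) := by rw [← Real.exp_mul]
      _ ≤ Real.exp (s / n) := by
        apply Real.exp_le_exp.2
        rw [div_mul_eq_mul_div]
        apply div_le_div_of_nonneg_right _ hn'.le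
        nlinarith

end Helper72.BQ.P
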