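import Pool.Agent.Helper72.BQ.Defs

/-! # BQ, module Q8c (MP_3dd6d4_an, helper54): interpolation of `A_p` near `2` -/

set_option autoImplicit false

open MeasureTheory Complex FourierTransform Filter Topology
open scoped ENNReal NNReal ComplexConjugate

noncomputable section

namespace Helper72.BQ.P

open Helper72.BA Helper85.BP Helper72.BQ

lemma diffAt_L : DifferentiableAt ℝ
    (fun s : ℝ => Real.log (Real.Gamma s) - Real.log (Real.Gamma (1 - s))) (1 / 2) := by
  have h1 : DifferentiableAt ℝ Real.Gamma (1 / 2) := by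
    apply Real.differentiableAt_Gamma
    intro m
    have : (0:ℝ) ≤ m := Nat.cast_nonneg m
    intro h
    linarith
  have h1' : DifferentiableAt ℝ Real.Gamma (1 - 1 / 2) := by
    have e : (1:ℝ) - 1 / 2 = 1 / 2 := by norm_num
    rw [e]; exact h1
  have h2 : DifferentiableAt ℝ (fun s : ℝ => Real.Gamma (1 - s)) (1 / 2) := by
    have h3 : DifferentiableAt ℝ (fun s : ℝ => 1 - s) (1 / 2) := by fun_prop
    exact h1'.comp (1 / 2 : ℝ) h3
  have p1 : 0 < Real.Gamma (1 / 2) := Real.Gamma_pos_of_pos (by norm_num)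
  have p2 : 0 < Real.Gamma (1 - 1 / 2) := Real.Gamma_pos_of_pos (by norm_num)
  exact (h1.log p1.ne').sub (h2.log p2.ne')

lemma log_Ap (b : ℝ) (hb : 1 < b) :
    Real.log (Ap b) = Real.log (Real.Gamma (1 / b)) - Real.log (Real.Gamma (1 - 1 / b)) := by
  have h0 : 0 < 1 / b := by positivity
  have h1 : 1 / b < 1 := by rw [div_lt_one (by linarith)]; exact hb
  have p1 : 0 < Real.Gamma (1 / b) := Real.Gamma_pos_of_pos h0
  have p2 : 0 < Real.Gamma (1 - 1 / b) := Real.Gamma_pos_of_pos (by linarith)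
  unfold Ap
  rw [Real.log_div p1.ne' p2.ne']

lemma Ap_pos' (b : ℝ) (hb : 1 < b) : 0 < Ap b := by
  have h0 : 0 < 1 / b := by positivity
  have h1 : 1 / b < 1 := by rw [div_lt_one (by linarith)]; exact hb
  have p1 : 0 < Real.Gamma (1 / b) := Real.Gamma_pos_of_pos h0
  have p2 : 0 < Real.Gamma (1 - 1 / b) := Real.Gamma_pos_of_pos (by linarith)
  unfold Ap
  positivity

theorem Ap_near_two (ε : ℝ) (hε : 0 < ε) : ∃ b0 : ℝ, 2 < b0 ∧ ∀ b : ℝ, 2 < b → b ≤ b0 →
    ∀ p t : ℝ, 2 ≤ p → p ≤ b → 1 / p = (1 - t) / 2 + t / b →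
    (Ap b) ^ t ≤ Ap p * Real.exp (ε * (p - 2)) := by
  set L : ℝ → ℝ := fun s => Real.log (Real.Gamma s) - Real.log (Real.Gamma (1 - s)) with hL
  have hd := diffAt_L.hasDerivAt
  rw [← hL] at hd
  set D := deriv L (1 / 2) with hD
  have hL0 : L (1 / 2) = 0 := by
    have e : (1:ℝ) - 1 / 2 = 1 / 2 := by norm_num
    simp only [hL]
    rw [e, sub_self]
  rw [hasDerivAt_iff_isLittleO] at hd
  have h1 := hd.bound (half_pos hε)
  obtain ⟨δ, hδ, h2⟩ := Metric.eventually_nhds_iff.1 h1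
  have key : ∀ x : ℝ, |x - 1 / 2| < δ → |L x - (x - 1 / 2) * D| ≤ ε / 2 * |x - 1 / 2| := by
    intro x hx
    have := h2 (y := x) (by rw [Real.dist_eq]; exact hx)
    rw [hL0, sub_zero, smul_eq_mul, Real.norm_eq_abs, Real.norm_eq_abs] at this
    exact this
  refine ⟨2 + δ, by linarith, fun b hb hb0 p t hp hpb hpt => ?_⟩
  have hb' : 0 < b := by linarith
  have hp' : 0 < p := by linarith
  have ub : 0 < 1 / 2 - 1 / b := by
    have := one_div_lt_one_div_of_lt (by norm_num : (0:ℝ) < 2) hb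
    linarith
  have up : 0 ≤ 1 / 2 - 1 / p := by
    have := one_div_le_one_div_of_le (by norm_num : (0:ℝ) < 2) hp
    linarith
  have upb : 1 / 2 - 1 / p ≤ 1 / 2 - 1 / b := by
    have := one_div_le_one_div_of_le hp' hpb
    linarith
  have ub2 : 1 / 2 - 1 / b < δ := by
    have h3 : 1 / 2 - 1 / b = (b - 2) / (2 * b) := by field_simp
    rw [h3, div_lt_iff₀ (by positivity)]
    nlinarith
  have ht : t * (1 / 2 - 1 / b) = 1 / 2 - 1 / p := by
    rw [hpt]; ring
  have ht0 : 0 ≤ t := by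
    by_contra h
    push Not at h
    nlinarith
  have kb := key (1 / b) (by rw [abs_sub_comm, abs_of_pos ub]; exact ub2)
  have kp := key (1 / p) (by rw [abs_sub_comm, abs_of_nonneg up]; linarith)
  rw [abs_sub_comm (1 / b) (1 / 2), abs_of_pos ub] at kb
  rw [abs_sub_comm (1 / p) (1 / 2), abs_of_nonneg up] at kp
  have kb' := (abs_le.1 kb).2
  have kp' := (abs_le.1 kp).1
  have hup2 : 1 / 2 - 1 / p ≤ p - 2 := by
    have h3 : 1 / 2 - 1 / p = (p - 2) / (2 * p) := by field_simp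
    rw [h3, div_le_iff₀ (by positivity)]
    nlinarith
  have hlog : t * L (1 / b) ≤ L (1 / p) + ε * (p - 2) := by
    have h5 : t * L (1 / b) ≤ t * ((1 / b - 1 / 2) * D + ε / 2 * (1 / 2 - 1 / b)) :=
      mul_le_mul_of_nonneg_left (by linarith) ht0
    have h6 : t * ((1 / b - 1 / 2) * D + ε / 2 * (1 / 2 - 1 / b)) =
        (1 / p - 1 / 2) * D + ε / 2 * (1 / 2 - 1 / p) := by
      have : t * ((1 / b - 1 / 2) * D + ε / 2 * (1 / 2 - 1 / b)) =
        -(t * (1 / 2 - 1 / b)) * D + ε / 2 * (t * (1 / 2 - 1 / b)) := by ring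
      rw [this, ht]; ring
    nlinarith
  have hAb := Ap_pos' b (by linarith)
  have hAp := Ap_pos' p (by linarith)
  rw [Real.rpow_def_of_pos hAb, log_Ap b (by linarith)]
  have e1 : Ap p = Real.exp (L (1 / p)) := by
    rw [← Real.exp_log hAp, log_Ap p (by linarith)]
  rw [e1, ← Real.exp_add]
  apply Real.exp_le_exp.2
  have : (Real.log (Real.Gamma (1 / b)) - Real.log (Real.Gamma (1 - 1 / b))) * t =
    t * L (1 / b) := by simp only [hL]; ring
  rw [this]
  exact hlog

end Helper72.BQ.P
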