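import Mathlib

set_option autoImplicit false

namespace Pool.Agent.Helper54.KRPower

open Set Topology

/-- General criterion: a space with a doubly indexed family of isolated points such that compact
sets meet only finitely many columns and every neighbourhood of `c` contains tails of all late
columns, together with a continuous map to the natural numbers that is onto and vanishes at `c`.
Then the countable power carries a discontinuous real function continuous on compact sets. -/
theorem exists_bad_function {X : Type} [TopologicalSpace X] (c : X) (a : ℕ → ℕ → X)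
    (hc : ∀ n m, a n m ≠ c)
    (hclopen : ∀ n m, IsClopen ({a n m} : Set X))
    (hcomp : ∀ K : Set X, IsCompact K → ∃ N : ℕ, ∀ n m, a n m ∈ K → n ≤ N)
    (hnhd : ∀ W : Set X, IsOpen W → c ∈ W → ∃ k : ℕ, ∀ n, k ≤ n → ∃ l : ℕ, ∀ m, l ≤ m → a n m ∈ W)
    (r : X → ℕ) (hr : Continuous r) (hrc : r c = 0) (b : ℕ → X) (hb : ∀ j, r (b j) = j) :
    ∃ f : (ℕ → X) → ℝ, ¬ Continuous f ∧ ∀ K : Set (ℕ → X), IsCompact K → ContinuousOn f K := by
  classical
  set A : ℕ → ℕ → Set (ℕ → X) := fun n m =>
    {x | x 0 = a n m ∧ (∀ i < n, r (x (i + 1)) = 0) ∧ r (x (n + 1)) = m + 1} with hA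
  have hAclopen : ∀ n m, IsClopen (A n m) := by
    intro n m
    have h1 : IsClopen {x : ℕ → X | x 0 = a n m} :=
      (hclopen n m).preimage (continuous_apply 0)
    have h2 : IsClopen {x : ℕ → X | ∀ i < n, r (x (i + 1)) = 0} := by
      have : {x : ℕ → X | ∀ i < n, r (x (i + 1)) = 0}
          = ⋂ i ∈ Finset.range n, {x : ℕ → X | r (x (i + 1)) = 0} := by
        ext x; simp
      rw [this]
      refine isClopen_biInter_finset ?_
      intro i _
      exact (isClopen_discrete ({0} : Set ℕ)).preimage (hr.comp (continuous_apply (i + 1)))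
    have h3 : IsClopen {x : ℕ → X | r (x (n + 1)) = m + 1} :=
      (isClopen_discrete ({m + 1} : Set ℕ)).preimage (hr.comp (continuous_apply (n + 1)))
    have : A n m = {x : ℕ → X | x 0 = a n m} ∩ ({x : ℕ → X | ∀ i < n, r (x (i + 1)) = 0} ∩
        {x : ℕ → X | r (x (n + 1)) = m + 1}) := by
      ext x; simp [hA]
    rw [this]
    exact h1.inter (h2.inter h3)
  refine ⟨(⋃ n, ⋃ m, A n m).indicator (fun _ => (1 : ℝ)), ?_, ?_⟩
  · intro hcont
    have hx0 : (⋃ n, ⋃ m, A n m).indicator (fun _ => (1 : ℝ)) (fun _ => c) = 0 := by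
      apply Set.indicator_of_notMem
      simp only [mem_iUnion, not_exists]
      intro n m hx
      exact hc n m hx.1.symm
    have hopen : IsOpen ((⋃ n, ⋃ m, A n m).indicator (fun _ => (1 : ℝ)) ⁻¹' (Set.Iio (1/2))) :=
      isOpen_Iio.preimage hcont
    have hmem : (fun _ => c) ∈ ((⋃ n, ⋃ m, A n m).indicator (fun _ => (1 : ℝ)) ⁻¹' (Set.Iio (1/2))) := by
      show (⋃ n, ⋃ m, A n m).indicator (fun _ => (1 : ℝ)) (fun _ => c) < 1/2
      rw [hx0]; norm_num
    obtain ⟨I, u, hu, hsub⟩ := isOpen_pi_iff.1 hopen _ hmem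
    set W : Set X := ⋂ i ∈ I, u i with hW
    have hWo : IsOpen W := isOpen_biInter_finset (fun i hi => (hu i hi).1)
    have hWc : c ∈ W := by
      simp only [hW, mem_iInter]
      intro i hi
      exact (hu i hi).2
    obtain ⟨k, hk⟩ := hnhd W hWo hWc
    obtain ⟨l, hl⟩ := hk (max k (I.sup id)) (le_max_left _ _)
    set n := max k (I.sup id) with hn
    have haW := hl l le_rfl
    set y : ℕ → X := fun i => if i = 0 then a n l else if i = n + 1 then b (l + 1) else c with hy
    have hyA : y ∈ A n l := by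
      refine ⟨by simp [hy], ?_, by simp [hy, hb]⟩
      intro i hi
      have h1 : i + 1 ≠ n + 1 := by omega
      have h0 : i + 1 ≠ 0 := by omega
      simp only [hy, if_neg h0, if_neg h1]
      exact hrc
    have hyU : y ∈ (I : Set ℕ).pi u := by
      intro i hi
      have hiI : i ∈ I := hi
      have hile : i ≤ n := le_trans (Finset.le_sup (f := id) hiI) (le_max_right _ _)
      by_cases h0 : i = 0
      · subst h0
        simp only [hy, if_true]
        have := haW
        simp only [hW, mem_iInter] at this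
        exact this 0 hiI
      · have h1 : i ≠ n + 1 := by omega
        simp only [hy, h0, h1, if_false]
        exact (hu i hiI).2
    have hlt := hsub hyU
    have h1 : (⋃ n, ⋃ m, A n m).indicator (fun _ => (1 : ℝ)) y = 1 := by
      apply Set.indicator_of_mem
      exact mem_iUnion.2 ⟨n, mem_iUnion.2 ⟨l, hyA⟩⟩
    have h2 : (⋃ n, ⋃ m, A n m).indicator (fun _ => (1 : ℝ)) y < 1/2 := hlt
    rw [h1] at h2
    norm_num at h2
  · intro K hK
    obtain ⟨N, hN⟩ := hcomp ((fun x : ℕ → X => x 0) '' K) (hK.image (continuous_apply 0))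
    have hM : ∀ n : ℕ, ∃ M : ℕ, ∀ x ∈ K, r (x (n + 1)) ≤ M := by
      intro n
      have hKn : IsCompact ((fun x : ℕ → X => r (x (n + 1))) '' K) :=
        hK.image (hr.comp (continuous_apply (n + 1)))
      obtain ⟨M, hM⟩ := hKn.bddAbove
      exact ⟨M, fun x hx => hM ⟨x, hx, rfl⟩⟩
    choose M hM using hM
    have hB : IsClopen (⋃ n ∈ Finset.range (N + 1), ⋃ m ∈ Finset.range (M n + 1), A n m) := by
      refine isClopen_biUnion_finset ?_
      intro n _
      refine isClopen_biUnion_finset ?_
      intro m _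
      exact hAclopen n m
    have hg : Continuous ((⋃ n ∈ Finset.range (N + 1), ⋃ m ∈ Finset.range (M n + 1), A n m).indicator
        (fun _ => (1 : ℝ))) := by
      apply IsClopen.continuous_indicator hB continuous_const
    refine hg.continuousOn.congr ?_
    intro x hx
    by_cases hxU : x ∈ (⋃ n, ⋃ m, A n m)
    · rw [Set.indicator_of_mem hxU, Set.indicator_of_mem]
      obtain ⟨n, hxn⟩ := mem_iUnion.1 hxU
      obtain ⟨m, hxm⟩ := mem_iUnion.1 hxn
      have hnN : n ≤ N := hN n m ⟨x, hx, hxm.1⟩
      have hmM : m + 1 ≤ M n := by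
        have := hM n x hx
        rw [hxm.2.2] at this
        exact this
      simp only [mem_iUnion, Finset.mem_range]
      exact ⟨n, by omega, m, by omega, hxm⟩
    · rw [Set.indicator_of_notMem hxU, Set.indicator_of_notMem]
      intro hx'
      apply hxU
      simp only [mem_iUnion, Finset.mem_range] at hx'
      obtain ⟨n, _, m, _, hxm⟩ := hx'
      exact mem_iUnion.2 ⟨n, mem_iUnion.2 ⟨m, hxm⟩⟩

end Pool.Agent.Helper54.KRPower
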