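import Mathlib

set_option autoImplicit false

namespace Pool.Agent.Helper54.TS

open Complex ComplexConjugate

/-- The key algebraic fact. -/
theorem key_algebra (a b c x y z : ℂ)
    (h0 : a * x = b) (h1 : a * y + b * x = conj c) (h2 : a * z + b * y + c * x = I * conj b)
    (h3 : b * z + c * y = - conj a) (h4 : c * z = 0) (h5 : (conj a * b ^ 2).re = 0) :
    a = 0 ∧ b = 0 ∧ c = 0 := by
  by_cases hc : c = 0
  · subst hc
    simp only [map_zero, zero_mul, add_zero] at h1 h2 h3
    by_cases hb : b = 0
    · subst hb
      simp only [zero_mul] at h3
      have : conj a = 0 := by simpa using h3.symm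
      refine ⟨?_, rfl, rfl⟩
      simpa using this
    · exfalso
      have ha : a ≠ 0 := by
        rintro rfl
        apply hb
        rw [← h0]; ring
      -- main identity
      have e1 : (conj a * b ^ 2) ^ 2 = - (a * conj a) ^ 2 * (a * conj a + I * (b * conj b)) := by
        have k1 : b ^ 2 * y = a * conj a + I * (b * conj b) := by
          have : b * (a * z + b * y) = b * (I * conj b) := by rw [h2]
          have h3' : a * (b * z) = a * (- conj a) := by rw [h3]
          linear_combination this - h3'
        have k2 : a ^ 2 * y = - b ^ 2 := by
          have : a * (a * y + b * x) = 0 := by rw [h1]; ring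
          linear_combination this - b * h0
        linear_combination (conj a) ^ 2 * (a ^ 2 * k1 - b ^ 2 * k2) * (-1)
      have e2 : ((conj a * b ^ 2) ^ 2).im = 0 := by
        rw [pow_two, mul_im, h5]; ring
      have e3 : (- (a * conj a) ^ 2 * (a * conj a + I * (b * conj b))).im
          = - (normSq a) ^ 2 * normSq b := by
        rw [mul_conj, mul_conj]
        simp [pow_two, mul_im]
      rw [e1, e3] at e2
      have hA : normSq a ≠ 0 := by simpa using ha
      have hB : normSq b ≠ 0 := by simpa using hb
      have : (normSq a) ^ 2 * normSq b ≠ 0 := mul_ne_zero (pow_ne_zero _ hA) hB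
      apply this
      linarith
  · exfalso
    have hz : z = 0 := by
      rcases mul_eq_zero.1 h4 with h | h
      · exact absurd h hc
      · exact h
    subst hz
    simp only [mul_zero, zero_add] at h2 h3
    set n : ℝ := normSq a + normSq c with hn
    have hcpos : 0 < normSq c := normSq_pos.2 hc
    have hnpos : 0 < n := by
      have := normSq_nonneg a
      linarith
    have hnC : (n : ℂ) = a * conj a + c * conj c := by
      rw [mul_conj, mul_conj, hn]; push_cast; ring
    have e1 : b * c * x = n := by
      rw [hnC]
      have : c * (a * y + b * x) = c * conj c := by rw [h1]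
      have h3' : a * (c * y) = a * (- conj a) := by rw [h3]
      linear_combination this - h3'
    have hb : b ≠ 0 := by
      rintro rfl
      simp only [zero_mul] at e1
      have : n = 0 := by exact_mod_cast e1.symm
      linarith
    have e2 : a * n = b ^ 2 * c := by
      rw [← e1]
      linear_combination b * c * h0
    have ha : a ≠ 0 := by
      rintro rfl
      rw [zero_mul] at e2
      exact (mul_ne_zero (pow_ne_zero 2 hb) hc) e2.symm
    set s : ℂ := conj a * b ^ 2 with hs
    have e3 : s = c * (n - I * normSq b) := by
      have : c * (b * y + c * x) = c * (I * conj b) := by rw [h2]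
      have hbb : (normSq b : ℂ) = b * conj b := by rw [mul_conj]
      rw [hbb, ← e1, hs]
      linear_combination (-b) * this + b ^ 2 * h3
    have e4 : s * c = ((normSq a * n : ℝ) : ℂ) := by
      have haa : (normSq a : ℂ) = a * conj a := by rw [mul_conj]
      push_cast
      rw [haa, hs]
      linear_combination - conj a * e2
    have hr : 0 < normSq a * n := mul_pos (normSq_pos.2 ha) hnpos
    -- real and imaginary parts
    have r4 := congrArg Complex.re e4
    have i4 := congrArg Complex.im e4
    rw [mul_re, ofReal_re, h5] at r4
    rw [mul_im, ofReal_im, h5] at i4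
    have hsim : s.im ≠ 0 := by
      intro h
      rw [h] at r4
      simp only [zero_mul, sub_zero] at r4
      linarith
    have hcre : c.re = 0 := by
      have : s.im * c.re = 0 := by linarith
      rcases mul_eq_zero.1 this with h | h
      · exact absurd h hsim
      · exact h
    have r3 := congrArg Complex.re e3
    rw [h5, mul_re] at r3
    simp only [sub_re, sub_im, mul_re, mul_im, I_re, I_im, ofReal_re, ofReal_im] at r3
    rw [hcre] at r3
    have hB : 0 < normSq b := normSq_pos.2 hb
    have hcim : c.im = 0 := by
      have : c.im * normSq b = 0 := by linarith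
      rcases mul_eq_zero.1 this with h | h
      · exact h
      · linarith
    exact hc (Complex.ext hcre hcim)

end Pool.Agent.Helper54.TS
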