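import Mathlib

set_option autoImplicit false

namespace Pool.Agent.Helper54.TS

open Topology Filter Set Module
open scoped InnerProductSpace RealInnerProductSpace

/-- Second order Taylor limit via L'Hopital. -/
theorem tendsto_div_sq (φ φ' : ℝ → ℝ) (φ'' s : ℝ) (h1 : ∀ t, HasDerivAt φ (φ' t) t)
    (h2 : HasDerivAt φ' φ'' s) (h0 : φ s = 0) (h0' : φ' s = 0) :
    Tendsto (fun t => φ t / (t - s) ^ 2) (𝓝[≠] s) (𝓝 (φ'' / 2)) := by
  have hsl : Tendsto (fun t => φ' t / (2 * (t - s))) (𝓝[≠] s) (𝓝 (φ'' / 2)) := by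
    have := (hasDerivAt_iff_tendsto_slope.1 h2).div_const 2
    refine this.congr' ?_
    filter_upwards [self_mem_nhdsWithin] with t ht
    have hts : t - s ≠ 0 := sub_ne_zero.2 ht
    rw [slope_def_field, h0', sub_zero]
    field_simp
  refine HasDerivAt.lhopital_zero_nhdsNE (f' := φ') (g' := fun t => 2 * (t - s)) ?_ ?_ ?_ ?_ ?_ hsl
  · exact Eventually.of_forall h1
  · refine Eventually.of_forall (fun t => ?_)
    have := ((hasDerivAt_id' t).sub_const s).fun_pow 2
    simpa using this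
  · filter_upwards [self_mem_nhdsWithin] with t ht
    have hts : t - s ≠ 0 := sub_ne_zero.2 ht
    positivity
  · have : Tendsto φ (𝓝 s) (𝓝 (φ s)) := (h1 s).continuousAt
    rw [h0] at this
    exact this.mono_left nhdsWithin_le_nhds
  · have : Continuous (fun t : ℝ => (t - s) ^ 2) := by fun_prop
    have h := this.tendsto s
    simp only [sub_self, ne_eq, OfNat.ofNat_ne_zero, not_false_eq_true, zero_pow] at h
    exact h.mono_left nhdsWithin_le_nhds

variable {V : Type*} [NormedAddCommGroup V] [InnerProductSpace ℝ V] [FiniteDimensional ℝ V]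

theorem exists_orthogonal (hV : 2 < finrank ℝ V) (v h : V) :
    ∃ k : V, k ≠ 0 ∧ ⟪v, k⟫ = 0 ∧ ⟪h, k⟫ = 0 := by
  classical
  set W : Submodule ℝ V := Submodule.span ℝ (({v, h} : Finset V) : Set V) with hW
  have h1 : finrank ℝ W ≤ 2 :=
    (finrank_span_finset_le_card _).trans Finset.card_le_two
  have h2 := W.finrank_add_finrank_orthogonal
  have h3 : 0 < finrank ℝ Wᗮ := by omega
  have h4 : Wᗮ ≠ ⊥ := by
    intro hbot
    rw [hbot] at h3
    simp at h3
  obtain ⟨k, hk, hk0⟩ := (Submodule.ne_bot_iff _).1 h4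
  refine ⟨k, hk0, ?_, ?_⟩
  · exact (Submodule.mem_orthogonal W k).1 hk v (Submodule.subset_span (by simp))
  · exact (Submodule.mem_orthogonal W k).1 hk h (Submodule.subset_span (by simp))

theorem eq_smul_of_orthogonal (hV : finrank ℝ V = 3) (v h k z : V) (hv : v ≠ 0) (hh : h ≠ 0)
    (hk : k ≠ 0) (hvh : ⟪v, h⟫ = 0) (hvk : ⟪v, k⟫ = 0) (hhk : ⟪h, k⟫ = 0)
    (hzh : ⟪z, h⟫ = 0) (hzk : ⟪z, k⟫ = 0) : ∃ μ : ℝ, z = μ • v := by
  refine ⟨⟪v, z⟫ / ⟪v, v⟫, ?_⟩
  by_contra hne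
  set z' := z - (⟪v, z⟫ / ⟪v, v⟫) • v with hz'
  have hz'0 : z' ≠ 0 := sub_ne_zero.2 hne
  have hvv : ⟪v, v⟫ ≠ 0 := (real_inner_self_pos.2 hv).ne'
  have e1 : ⟪v, z'⟫ = 0 := by
    rw [hz', inner_sub_right, inner_smul_right]
    field_simp
    ring
  have e2 : ⟪h, z'⟫ = 0 := by
    rw [hz', inner_sub_right, inner_smul_right, real_inner_comm z h, hzh, real_inner_comm v h, hvh]
    ring
  have e3 : ⟪k, z'⟫ = 0 := by
    rw [hz', inner_sub_right, inner_smul_right, real_inner_comm z k, hzk, real_inner_comm v k, hvk]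
    ring
  have hli : LinearIndependent ℝ ![v, h, k, z'] := by
    apply linearIndependent_of_ne_zero_of_inner_eq_zero
    · intro i
      fin_cases i <;> simp [hv, hh, hk, hz'0]
    · intro i j hij
      fin_cases i <;> fin_cases j <;>
        simp [hvh, hvk, hhk, e1, e2, e3, real_inner_comm] at hij ⊢
  have := hli.fintype_card_le_finrank
  rw [hV] at this
  simp at this

/-- Core of the lower bound for the circle. -/
theorem circle_core (hV : finrank ℝ V = 3) (γ γ' : ℝ → V)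
    (hγ : ∀ t, HasDerivAt γ (γ' t) t) (hγ' : Differentiable ℝ γ')
    (per : Function.Periodic γ (2 * Real.pi))
    (hinj : ∀ s c, s < c → c < s + 2 * Real.pi → γ c ≠ γ s) (hreg : ∀ t, γ' t ≠ 0) :
    ∃ s c : ℝ, s < c ∧ c < s + 2 * Real.pi ∧ ∃ α β τ : ℝ, α ≠ 0 ∧
      α • γ' c + β • γ' s + τ • (γ c - γ s) = 0 := by
  have hpi : 0 < 2 * Real.pi := Real.two_pi_pos
  have hcont : Continuous γ := continuous_iff_continuousAt.2 (fun t => (hγ t).continuousAt)
  -- a point of maximal norm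
  obtain ⟨s, hs⟩ : ∃ s, ∀ t, ‖γ t‖ ≤ ‖γ s‖ := by
    obtain ⟨s, _, hs⟩ := (isCompact_Icc (a := (0 : ℝ)) (b := 2 * Real.pi)).exists_isMaxOn
      ⟨0, by simp [hpi.le]⟩ (hcont.norm.continuousOn)
    refine ⟨s, fun t => ?_⟩
    obtain ⟨t', ht', h⟩ := per.exists_mem_Ico₀ hpi t
    rw [h]
    exact hs ⟨ht'.1, ht'.2.le⟩
  set h := γ s with hh
  set v := γ' s with hvdef
  set f : ℝ → ℝ := fun t => ⟪γ t - h, h⟫ with hf
  have hineq : ∀ t, 2 * f t + ‖γ t - h‖ ^ 2 ≤ 0 := by
    intro t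
    have e : ‖γ t‖ ^ 2 = ‖γ t - h‖ ^ 2 + 2 * ⟪γ t - h, h⟫ + ‖h‖ ^ 2 := by
      have : γ t = (γ t - h) + h := by abel
      conv_lhs => rw [this]
      rw [norm_add_sq_real]
    have hle : ‖γ t‖ ^ 2 ≤ ‖h‖ ^ 2 := by
      have := hs t
      gcongr
    simp only [hf]
    linarith
  have hfderiv : ∀ t, HasDerivAt f (⟪γ' t, h⟫) t := by
    intro t
    have := ((hγ t).sub_const h).inner ℝ (hasDerivAt_const t h)
    simpa [hf] using this
  have hfs : f s = 0 := by simp [hf, hh]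
  have hfs' : ⟪v, h⟫ = 0 := by
    have hmax : IsLocalMax f s := by
      refine Eventually.of_forall (fun t => ?_)
      have := hineq t
      rw [hfs]
      have h2 : 0 ≤ ‖γ t - h‖ ^ 2 := by positivity
      linarith
    exact hmax.hasDerivAt_eq_zero (hfderiv s)
  obtain ⟨k, hk0, hvk, hhk⟩ := exists_orthogonal (by omega : 2 < finrank ℝ V) v h
  set g : ℝ → ℝ := fun t => ⟪γ t - h, k⟫ with hg
  have hgderiv : ∀ t, HasDerivAt g (⟪γ' t, k⟫) t := by
    intro t
    have := ((hγ t).sub_const h).inner ℝ (hasDerivAt_const t k)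
    simpa [hg] using this
  have hgs : g s = 0 := by simp [hg, hh]
  -- second derivatives
  have hacc : HasDerivAt γ' (deriv γ' s) s := (hγ' s).hasDerivAt
  have hf2 : HasDerivAt (fun t => ⟪γ' t, h⟫) (⟪deriv γ' s, h⟫) s := by
    have := hacc.inner ℝ (hasDerivAt_const s h)
    simpa using this
  have hg2 : HasDerivAt (fun t => ⟪γ' t, k⟫) (⟪deriv γ' s, k⟫) s := by
    have := hacc.inner ℝ (hasDerivAt_const s k)
    simpa using this
  have hflim := tendsto_div_sq f _ _ s hfderiv hf2 hfs hfs'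
  have hglim := tendsto_div_sq g _ _ s hgderiv hg2 hgs hvk
  -- `f'' < 0`
  have hspeed : Tendsto (fun t => ‖γ t - h‖ ^ 2 / (t - s) ^ 2) (𝓝[≠] s) (𝓝 (‖v‖ ^ 2)) := by
    have h1 := (hasDerivAt_iff_tendsto_slope.1 (hγ s)).norm.pow 2
    refine h1.congr' ?_
    filter_upwards [self_mem_nhdsWithin] with t ht
    rw [slope_def_module, norm_smul, mul_pow, norm_inv, inv_pow, Real.norm_eq_abs, sq_abs]
    field_simp
    rfl
  have hf2neg : ⟪deriv γ' s, h⟫ / 2 < 0 := by
    have hle : 2 * (⟪deriv γ' s, h⟫ / 2) + ‖v‖ ^ 2 ≤ 0 := by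
      refine le_of_tendsto ((hflim.const_mul 2).add hspeed) ?_
      filter_upwards [self_mem_nhdsWithin] with t ht
      have hts : 0 < (t - s) ^ 2 := by
        have : t - s ≠ 0 := sub_ne_zero.2 ht
        positivity
      have := hineq t
      have e : 2 * (f t / (t - s) ^ 2) + ‖γ t - h‖ ^ 2 / (t - s) ^ 2
          = (2 * f t + ‖γ t - h‖ ^ 2) / (t - s) ^ 2 := by ring
      rw [e]
      exact div_nonpos_of_nonpos_of_nonneg this hts.le
    have hvpos : 0 < ‖v‖ ^ 2 := by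
      have : v ≠ 0 := hreg s
      positivity
    linarith
  -- the quotient
  set q : ℝ → ℝ := fun t => g t / f t with hq
  have hqlim : Tendsto q (𝓝[≠] s) (𝓝 ((⟪deriv γ' s, k⟫ / 2) / (⟪deriv γ' s, h⟫ / 2))) := by
    refine (hglim.div hflim hf2neg.ne).congr' ?_
    filter_upwards [self_mem_nhdsWithin] with t ht
    have hts : (t - s) ^ 2 ≠ 0 := by
      have : t - s ≠ 0 := sub_ne_zero.2 ht
      positivity
    simp only [hq, Pi.div_apply]
    rw [div_div_div_cancel_right₀ hts]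
  have hqper : ∀ t, q (t + 2 * Real.pi) = q t := by
    intro t
    simp only [hq, hg, hf, per t]
  have hright : Tendsto q (𝓝[>] s) (𝓝 ((⟪deriv γ' s, k⟫ / 2) / (⟪deriv γ' s, h⟫ / 2))) :=
    hqlim.mono_left (nhdsWithin_mono _ (fun t (ht : s < t) => ht.ne'))
  have hleft : Tendsto q (𝓝[<] (s + 2 * Real.pi))
      (𝓝 ((⟪deriv γ' s, k⟫ / 2) / (⟪deriv γ' s, h⟫ / 2))) := by
    have h1 : Tendsto (fun t : ℝ => t - 2 * Real.pi) (𝓝[<] (s + 2 * Real.pi)) (𝓝[≠] s) := by
      apply tendsto_nhdsWithin_iff.2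
      constructor
      · have : Continuous (fun t : ℝ => t - 2 * Real.pi) := by fun_prop
        have h2 := this.tendsto (s + 2 * Real.pi)
        simp only [add_sub_cancel_right] at h2
        exact h2.mono_left nhdsWithin_le_nhds
      · filter_upwards [self_mem_nhdsWithin] with t ht
        have ht' : t < s + 2 * Real.pi := ht
        have : t - 2 * Real.pi < s := by linarith
        exact this.ne
    refine (hqlim.comp h1).congr (fun t => ?_)
    have := hqper (t - 2 * Real.pi)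
    simp only [sub_add_cancel] at this
    exact this.symm
  have hfneg : ∀ t ∈ Ioo s (s + 2 * Real.pi), f t ≠ 0 := by
    intro t ht h0
    have h1 := hineq t
    rw [h0] at h1
    have h2 : ‖γ t - h‖ ^ 2 ≤ 0 := by linarith
    have h3 : ‖γ t - h‖ = 0 := by
      have : 0 ≤ ‖γ t - h‖ := norm_nonneg _
      nlinarith
    exact hinj s t ht.1 ht.2 (sub_eq_zero.1 (norm_eq_zero.1 h3))
  obtain ⟨c, hc, hqc⟩ := exists_hasDerivAt_eq_zero' (f := q)
    (f' := fun t => (⟪γ' t, k⟫ * f t - g t * ⟪γ' t, h⟫) / f t ^ 2)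
    (by linarith : s < s + 2 * Real.pi) hright hleft
    (fun t ht => (hgderiv t).div (hfderiv t) (hfneg t ht))
  have hfc := hfneg c hc
  have hnum : ⟪γ' c, k⟫ * f c - g c * ⟪γ' c, h⟫ = 0 := by
    have : f c ^ 2 ≠ 0 := pow_ne_zero 2 hfc
    exact (div_eq_zero_iff.1 hqc).resolve_right this
  -- the vector `z`
  set z : V := f c • γ' c - ⟪γ' c, h⟫ • (γ c - h) with hz
  have hzh : ⟪z, h⟫ = 0 := by
    rw [hz, inner_sub_left, real_inner_smul_left, real_inner_smul_left]
    simp only [hf]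
    ring
  have hzk : ⟪z, k⟫ = 0 := by
    rw [hz, inner_sub_left, real_inner_smul_left, real_inner_smul_left]
    simp only [hg] at hnum
    linarith
  have hh0 : h ≠ 0 := by
    intro h0
    apply hfc
    simp [hf, h0]
  obtain ⟨μ, hμ⟩ := eq_smul_of_orthogonal hV v h k z (hreg s) hh0 hk0 hfs' hvk hhk hzh hzk
  refine ⟨s, c, hc.1, hc.2, f c, -μ, -⟪γ' c, h⟫, hfc, ?_⟩
  have : f c • γ' c - ⟪γ' c, h⟫ • (γ c - h) = μ • v := by rw [← hμ]
  rw [neg_smul, neg_smul]
  have h2 : f c • γ' c + -(μ • v) + -(⟪γ' c, h⟫ • (γ c - h))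
      = (f c • γ' c - ⟪γ' c, h⟫ • (γ c - h)) - μ • v := by abel
  rw [h2, this, sub_self]

end Pool.Agent.Helper54.TS
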