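import Mathlib
import Pool.Agent.Helper54.TSAlgebra

set_option autoImplicit false

namespace Pool.Agent.Helper54.TS

open Complex ComplexConjugate Topology

abbrev E3 := ℂ × ℂ × ℂ
abbrev G11 := ℂ × ℂ × ℂ × ℂ × ℂ × ℝ

noncomputable def S (x u : E3) : ℂ :=
  (x.1 * conj u.1 + u.1 * conj x.1) + (x.2.1 * conj u.2.1 + u.2.1 * conj x.2.1)
    + (x.2.2 * conj u.2.2 + u.2.2 * conj x.2.2)

noncomputable def NC (x : E3) : ℂ := x.1 * conj x.1 + x.2.1 * conj x.2.1 + x.2.2 * conj x.2.2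

noncomputable def G (x : E3) : G11 :=
  (x.1 * x.1 + NC x * x.2.1,
   2 * (x.1 * x.2.1) + NC x * conj x.2.2,
   2 * (x.1 * x.2.2) + x.2.1 * x.2.1 + NC x * (I * conj x.2.1),
   2 * (x.2.1 * x.2.2) - NC x * conj x.1,
   x.2.2 * x.2.2,
   (conj x.1 * (x.2.1 * x.2.1)).re)

noncomputable def DG (x u : E3) : G11 :=
  (2 * (x.1 * u.1) + (S x u * x.2.1 + NC x * u.2.1),
   2 * (x.1 * u.2.1 + u.1 * x.2.1) + (S x u * conj x.2.2 + NC x * conj u.2.2),
   2 * (x.1 * u.2.2 + u.1 * x.2.2) + 2 * (x.2.1 * u.2.1)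
      + (S x u * (I * conj x.2.1) + NC x * (I * conj u.2.1)),
   2 * (x.2.1 * u.2.2 + u.2.1 * x.2.2) - (S x u * conj x.1 + NC x * conj u.1),
   2 * (x.2.2 * u.2.2),
   (conj u.1 * (x.2.1 * x.2.1) + conj x.1 * (2 * (x.2.1 * u.2.1))).re)

noncomputable def Phi (p w a : E3) (t : ℝ) : G11 :=
  (2 * (w.1 * a.1) + (S p w * a.2.1 + S p a * w.2.1 + S w a * p.2.1)
      + (t / 2) * (NC w * w.2.1),
   2 * (w.1 * a.2.1 + w.2.1 * a.1)
      + (S p w * conj a.2.2 + S p a * conj w.2.2 + S w a * conj p.2.2)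
      + (t / 2) * (NC w * conj w.2.2),
   2 * (w.1 * a.2.2 + w.2.1 * a.2.1 + w.2.2 * a.1)
      + (S p w * (I * conj a.2.1) + S p a * (I * conj w.2.1) + S w a * (I * conj p.2.1))
      + (t / 2) * (NC w * (I * conj w.2.1)),
   2 * (w.2.1 * a.2.2 + w.2.2 * a.2.1)
      - (S p w * conj a.1 + S p a * conj w.1 + S w a * conj p.1)
      - (t / 2) * (NC w * conj w.1),
   2 * (w.2.2 * a.2.2),
   (2 * (conj p.1 * (w.2.1 * a.2.1) + conj w.1 * (p.2.1 * a.2.1) + conj a.1 * (p.2.1 * w.2.1))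
      + (t / 2) * (conj w.1 * (w.2.1 * w.2.1))).re)

theorem continuous_Phi : Continuous (fun z : E3 × E3 × E3 × ℝ => Phi z.1 z.2.1 z.2.2.1 z.2.2.2) := by
  unfold Phi S NC
  fun_prop

theorem hasFDerivAt_G (x : E3) : ∃ D : E3 →L[ℝ] G11, HasFDerivAt G D x ∧ ∀ u, D u = DG x u := by
  have h1 : HasFDerivAt (fun x : E3 => x.1) (ContinuousLinearMap.fst ℝ ℂ (ℂ × ℂ)) x :=
    hasFDerivAt_fst
  have h2 : HasFDerivAt (fun x : E3 => x.2.1)
      ((ContinuousLinearMap.fst ℝ ℂ ℂ).comp (ContinuousLinearMap.snd ℝ ℂ (ℂ × ℂ))) x :=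
    ((ContinuousLinearMap.fst ℝ ℂ ℂ).comp (ContinuousLinearMap.snd ℝ ℂ (ℂ × ℂ))).hasFDerivAt
  have h3 : HasFDerivAt (fun x : E3 => x.2.2)
      ((ContinuousLinearMap.snd ℝ ℂ ℂ).comp (ContinuousLinearMap.snd ℝ ℂ (ℂ × ℂ))) x :=
    ((ContinuousLinearMap.snd ℝ ℂ ℂ).comp (ContinuousLinearMap.snd ℝ ℂ (ℂ × ℂ))).hasFDerivAt
  have c1 : HasFDerivAt (fun x : E3 => conj x.1)
      ((conjCLE : ℂ →L[ℝ] ℂ).comp (ContinuousLinearMap.fst ℝ ℂ (ℂ × ℂ))) x :=
    ((conjCLE : ℂ →L[ℝ] ℂ).comp (ContinuousLinearMap.fst ℝ ℂ (ℂ × ℂ))).hasFDerivAt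
  have c2 : HasFDerivAt (fun x : E3 => conj x.2.1)
      ((conjCLE : ℂ →L[ℝ] ℂ).comp
        ((ContinuousLinearMap.fst ℝ ℂ ℂ).comp (ContinuousLinearMap.snd ℝ ℂ (ℂ × ℂ)))) x :=
    ((conjCLE : ℂ →L[ℝ] ℂ).comp
        ((ContinuousLinearMap.fst ℝ ℂ ℂ).comp (ContinuousLinearMap.snd ℝ ℂ (ℂ × ℂ)))).hasFDerivAt
  have c3 : HasFDerivAt (fun x : E3 => conj x.2.2)
      ((conjCLE : ℂ →L[ℝ] ℂ).comp
        ((ContinuousLinearMap.snd ℝ ℂ ℂ).comp (ContinuousLinearMap.snd ℝ ℂ (ℂ × ℂ)))) x :=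
    ((conjCLE : ℂ →L[ℝ] ℂ).comp
        ((ContinuousLinearMap.snd ℝ ℂ ℂ).comp (ContinuousLinearMap.snd ℝ ℂ (ℂ × ℂ)))).hasFDerivAt
  have hN := ((h1.mul c1).add (h2.mul c2)).add (h3.mul c3)
  have f0 := (h1.mul h1).add (hN.mul h2)
  have f1 := ((h1.mul h2).const_mul 2).add (hN.mul c3)
  have f2 := (((h1.mul h3).const_mul 2).add (h2.mul h2)).add (hN.mul (c2.const_mul I))
  have f3 := ((h2.mul h3).const_mul 2).sub (hN.mul c1)
  have f4 := h3.mul h3
  have f5 := (reCLM.hasFDerivAt (x := conj x.1 * (x.2.1 * x.2.1))).comp x (c1.mul (h2.mul h2))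
  have := f0.prodMk (f1.prodMk (f2.prodMk (f3.prodMk (f4.prodMk f5))))
  refine ⟨_, this, ?_⟩
  intro u
  simp only [DG, S, NC]
  ext <;> simp <;> ring

theorem main_identity (p w a : E3) (t : ℝ) :
    DG (p - (1 / 2 : ℝ) • w) (a - (t / 2) • w) + DG (p + (1 / 2 : ℝ) • w) (- a - (t / 2) • w)
      + t • (G (p + (1 / 2 : ℝ) • w) - G (p - (1 / 2 : ℝ) • w)) = - Phi p w a t := by
  obtain ⟨p1, p2, p3⟩ := p
  obtain ⟨w1, w2, w3⟩ := w
  obtain ⟨a1, a2, a3⟩ := a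
  have hre : ∀ (s : ℝ) (z : ℂ), s * z.re = ((s : ℂ) * z).re := by
    intro s z; simp
  simp only [DG, G, Phi, S, NC, Prod.mk_add_mk, Prod.mk_sub_mk, Prod.smul_mk, Prod.neg_mk,
    Prod.mk.injEq]
  refine ⟨?_, ?_, ?_, ?_, ?_, ?_⟩
  · simp only [real_smul, map_add, map_sub, map_mul, map_neg, conj_ofReal]
    push_cast
    ring
  · simp only [real_smul, map_add, map_sub, map_mul, map_neg, conj_ofReal]
    push_cast
    ring
  · simp only [real_smul, map_add, map_sub, map_mul, map_neg, conj_ofReal]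
    push_cast
    ring
  · simp only [real_smul, map_add, map_sub, map_mul, map_neg, conj_ofReal]
    push_cast
    ring
  · simp only [real_smul]
    push_cast
    ring
  · simp only [real_smul, map_add, map_sub, map_mul, map_neg, conj_ofReal, smul_eq_mul]
    rw [← sub_re, hre, ← add_re, ← add_re, ← neg_re]
    congr 1
    push_cast
    ring

/-- Complex quadratic polynomials have no zero divisors. -/
theorem no_zero_divisors (a b c x y z : ℂ)
    (h0 : a * x = 0) (h1 : a * y + b * x = 0) (h2 : a * z + b * y + c * x = 0)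
    (h3 : b * z + c * y = 0) (h4 : c * z = 0) (hw : ¬ (a = 0 ∧ b = 0 ∧ c = 0)) :
    x = 0 ∧ y = 0 ∧ z = 0 := by
  by_cases ha : a = 0
  · subst ha
    by_cases hb : b = 0
    · subst hb
      have hc : c ≠ 0 := fun h => hw ⟨rfl, rfl, h⟩
      simp only [zero_mul, zero_add] at h2 h3
      exact ⟨(mul_eq_zero.1 h2).resolve_left hc, (mul_eq_zero.1 h3).resolve_left hc,
        (mul_eq_zero.1 h4).resolve_left hc⟩
    · simp only [zero_mul, zero_add] at h1 h2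
      have hx := (mul_eq_zero.1 h1).resolve_left hb
      subst hx
      simp only [mul_zero, add_zero] at h2
      have hy := (mul_eq_zero.1 h2).resolve_left hb
      subst hy
      simp only [mul_zero, add_zero] at h3
      exact ⟨rfl, rfl, (mul_eq_zero.1 h3).resolve_left hb⟩
  · have hx := (mul_eq_zero.1 h0).resolve_left ha
    subst hx
    simp only [mul_zero, add_zero] at h1
    have hy := (mul_eq_zero.1 h1).resolve_left ha
    subst hy
    simp only [mul_zero, add_zero] at h2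
    exact ⟨rfl, rfl, (mul_eq_zero.1 h2).resolve_left ha⟩

theorem NC_eq (w : E3) : NC w = ((normSq w.1 + normSq w.2.1 + normSq w.2.2 : ℝ) : ℂ) := by
  simp only [NC, mul_conj]
  push_cast
  ring

theorem NC_ne_zero {w : E3} (hw : w ≠ 0) : NC w ≠ 0 := by
  rw [NC_eq]
  intro h
  apply hw
  have h' : normSq w.1 + normSq w.2.1 + normSq w.2.2 = 0 := by exact_mod_cast h
  have n1 := normSq_nonneg w.1
  have n2 := normSq_nonneg w.2.1
  have n3 := normSq_nonneg w.2.2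
  have e1 : w.1 = 0 := normSq_eq_zero.1 (by linarith)
  have e2 : w.2.1 = 0 := normSq_eq_zero.1 (by linarith)
  have e3 : w.2.2 = 0 := normSq_eq_zero.1 (by linarith)
  ext1
  · exact e1
  · ext1
    · exact e2
    · exact e3

/-- Nonsingularity at the origin. -/
theorem Phi_zero {w a : E3} {t : ℝ} (hw : w ≠ 0) (h : Phi 0 w a t = 0) : a = 0 ∧ t = 0 := by
  obtain ⟨w1, w2, w3⟩ := w
  obtain ⟨a1, a2, a3⟩ := a
  have hwne : ¬ (w1 = 0 ∧ w2 = 0 ∧ w3 = 0) := by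
    rintro ⟨rfl, rfl, rfl⟩
    exact hw rfl
  have hN := NC_ne_zero hw
  set n := NC (w1, w2, w3) with hn
  simp only [Phi, S, ← hn, Prod.fst_zero, Prod.snd_zero, map_zero, mul_zero, zero_mul, add_zero,
    zero_add, sub_zero, Prod.mk_eq_zero] at h
  obtain ⟨h0, h1, h2, h3, h4, h5⟩ := h
  by_cases ht : t = 0
  · subst ht
    simp only [ofReal_zero, zero_div, zero_mul, add_zero, sub_zero] at h0 h1 h2 h3
    have := no_zero_divisors w1 w2 w3 a1 a2 a3 (by simpa using h0) (by simpa using h1)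
      (by simpa using h2) (by simpa using h3) (by simpa using h4) hwne
    refine ⟨?_, rfl⟩
    simp [this.1, this.2.1, this.2.2]
  · exfalso
    have htC : (t : ℂ) ≠ 0 := by exact_mod_cast ht
    -- divide by `- t n / 4`
    set k : ℂ := - 4 / (t * n) with hk
    have hkk : k * (t * n) = - 4 := by
      rw [hk]; field_simp
    apply hwne
    refine key_algebra w1 w2 w3 (k * a1) (k * a2) (k * a3) ?_ ?_ ?_ ?_ ?_ ?_
    · linear_combination (k / 2) * h0 - (w2 / 4) * hkk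
    · linear_combination (k / 2) * h1 - (conj w3 / 4) * hkk
    · linear_combination (k / 2) * h2 - (I * conj w2 / 4) * hkk
    · linear_combination (k / 2) * h3 + (conj w1 / 4) * hkk
    · linear_combination (k / 2) * h4
    · have h5' : (t / 2) * (conj w1 * (w2 * w2)).re = 0 := by
        rw [← h5, ← re_ofReal_mul]
        congr 1
        push_cast
        ring
      have := (mul_eq_zero.1 h5').resolve_left (by positivity)
      rw [pow_two]
      exact this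

theorem Phi_smul_left (p w a : E3) (t ρ : ℝ) :
    Phi p (ρ • w) a t = ρ • Phi p w a (ρ ^ 2 * t) := by
  obtain ⟨p1, p2, p3⟩ := p
  obtain ⟨w1, w2, w3⟩ := w
  obtain ⟨a1, a2, a3⟩ := a
  have hre : ∀ (s : ℝ) (z : ℂ), s * z.re = ((s : ℂ) * z).re := by
    intro s z; simp
  simp only [Phi, S, NC, Prod.smul_mk, Prod.mk.injEq, real_smul, map_mul, conj_ofReal,
    smul_eq_mul]
  refine ⟨?_, ?_, ?_, ?_, ?_, ?_⟩
  · push_cast; ring
  · push_cast; ring
  · push_cast; ring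
  · push_cast; ring
  · ring
  · rw [hre]
    congr 1
    push_cast
    ring

theorem Phi_smul_right (p w a : E3) (t σ : ℝ) :
    Phi p w (σ • a) (σ * t) = σ • Phi p w a t := by
  obtain ⟨p1, p2, p3⟩ := p
  obtain ⟨w1, w2, w3⟩ := w
  obtain ⟨a1, a2, a3⟩ := a
  have hre : ∀ (s : ℝ) (z : ℂ), s * z.re = ((s : ℂ) * z).re := by
    intro s z; simp
  simp only [Phi, S, NC, Prod.smul_mk, Prod.mk.injEq, real_smul, map_mul, conj_ofReal,
    smul_eq_mul]
  refine ⟨?_, ?_, ?_, ?_, ?_, ?_⟩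
  · push_cast; ring
  · push_cast; ring
  · push_cast; ring
  · push_cast; ring
  · ring
  · rw [hre]
    congr 1
    push_cast
    ring

/-- Nonsingularity near the origin. -/
theorem exists_radius : ∃ r : ℝ, 0 < r ∧ ∀ p : E3, ‖p‖ < r → ∀ (w a : E3) (t : ℝ), w ≠ 0 →
    Phi p w a t = 0 → a = 0 ∧ t = 0 := by
  set K : Set (E3 × (E3 × ℝ)) := Metric.sphere (0 : E3) 1 ×ˢ Metric.sphere (0 : E3 × ℝ) 1 with hK
  have hKc : IsCompact K := (isCompact_sphere _ _).prod (isCompact_sphere _ _)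
  have hev : ∀ᶠ p in 𝓝 (0 : E3), ∀ k ∈ K, Phi p k.1 k.2.1 k.2.2 ≠ 0 := by
    apply hKc.eventually_forall_of_forall_eventually
    rintro ⟨w, a, t⟩ ⟨hw, hat⟩
    have hw' : w ≠ 0 := by
      rintro rfl
      simp at hw
    have hat' : (a, t) ≠ 0 := by
      intro h
      rw [mem_sphere_zero_iff_norm] at hat
      rw [h] at hat
      simp at hat
    have hne : Phi 0 w a t ≠ 0 := by
      intro h
      obtain ⟨h1, h2⟩ := Phi_zero hw' h
      apply hat'
      simp [h1, h2]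
    have hcont : Continuous (fun z : E3 × (E3 × (E3 × ℝ)) => Phi z.1 z.2.1 z.2.2.1 z.2.2.2) :=
      continuous_Phi
    exact (hcont.tendsto (0, (w, (a, t)))).eventually_ne hne
  obtain ⟨r, hr, hball⟩ := Metric.eventually_nhds_iff.1 hev
  refine ⟨r, hr, ?_⟩
  intro p hp w a t hw hPhi
  by_contra hcon
  have hρ : 0 < ‖w‖ := norm_pos_iff.2 hw
  set ρ := ‖w‖ with hρdef
  set w' : E3 := ρ⁻¹ • w with hw'
  have hww' : w = ρ • w' := by rw [hw', smul_smul, mul_inv_cancel₀ hρ.ne', one_smul]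
  have hw'n : ‖w'‖ = 1 := by
    rw [hw', norm_smul, norm_inv, Real.norm_of_nonneg hρ.le, ← hρdef, inv_mul_cancel₀ hρ.ne']
  set t' := ρ ^ 2 * t with ht'
  have hne : ((a, t') : E3 × ℝ) ≠ 0 := by
    intro h
    apply hcon
    have h1 : a = 0 := congrArg Prod.fst h
    have h2 : t' = 0 := congrArg Prod.snd h
    refine ⟨h1, ?_⟩
    rw [ht'] at h2
    exact (mul_eq_zero.1 h2).resolve_left (pow_ne_zero 2 hρ.ne')
  set σ := ‖((a, t') : E3 × ℝ)‖ with hσdef
  have hσ : 0 < σ := norm_pos_iff.2 hne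
  have hA : Phi p w' a t' = σ • Phi p w' (σ⁻¹ • a) (σ⁻¹ * t') := by
    rw [← Phi_smul_right, smul_smul, mul_inv_cancel₀ hσ.ne', one_smul,
      ← mul_assoc, mul_inv_cancel₀ hσ.ne', one_mul]
  have h1 : Phi p w a t = ρ • (σ • Phi p w' (σ⁻¹ • a) (σ⁻¹ * t')) := by
    rw [← hA]
    conv_lhs => rw [hww']
    rw [Phi_smul_left]
  rw [h1, smul_eq_zero, smul_eq_zero] at hPhi
  have h2 : Phi p w' (σ⁻¹ • a) (σ⁻¹ * t') = 0 :=
    (hPhi.resolve_left hρ.ne').resolve_left hσ.ne'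
  have hk : ((w', (σ⁻¹ • a, σ⁻¹ * t')) : E3 × (E3 × ℝ)) ∈ K := by
    refine ⟨?_, ?_⟩
    · simpa using hw'n
    · rw [mem_sphere_zero_iff_norm]
      have : ((σ⁻¹ • a, σ⁻¹ * t') : E3 × ℝ) = σ⁻¹ • (a, t') := rfl
      rw [this, norm_smul, norm_inv, Real.norm_of_nonneg hσ.le, ← hσdef, inv_mul_cancel₀ hσ.ne']
  exact hball (by simpa using hp) _ hk h2

/-- The graph map of `G` is totally skew on a ball around the origin. -/
theorem skew_near_zero : ∃ r : ℝ, 0 < r ∧ ∀ x y : E3, ‖x‖ < r → ‖y‖ < r → x ≠ y →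
    ∀ (u v : E3) (t : ℝ), u + v + t • (y - x) = 0 → DG x u + DG y v + t • (G y - G x) = 0 →
      u = 0 ∧ v = 0 ∧ t = 0 := by
  obtain ⟨r, hr, H⟩ := exists_radius
  refine ⟨r, hr, ?_⟩
  intro x y hx hy hxy u v t h1 h2
  set p : E3 := (1 / 2 : ℝ) • (x + y) with hp
  set w : E3 := y - x with hw
  set a : E3 := (1 / 2 : ℝ) • (u - v) with ha
  have hxp : x = p - (1 / 2 : ℝ) • w := by rw [hp, hw]; module
  have hyp : y = p + (1 / 2 : ℝ) • w := by rw [hp, hw]; module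
  have hv : v = - u - t • w := by
    rw [hw]
    linear_combination (exp := 1) h1
  have hua : u = a - (t / 2) • w := by rw [ha, hv]; module
  have hva : v = - a - (t / 2) • w := by rw [ha, hv]; module
  have hpn : ‖p‖ < r := by
    rw [hp, norm_smul]
    have : ‖x + y‖ ≤ ‖x‖ + ‖y‖ := norm_add_le x y
    have h3 : ‖(1 / 2 : ℝ)‖ = 1 / 2 := by norm_num
    rw [h3]
    linarith
  have hwne : w ≠ 0 := by
    rw [hw]; exact sub_ne_zero.2 hxy.symm
  have key := main_identity p w a t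
  rw [← hxp, ← hyp, ← hua, ← hva, h2] at key
  have hPhi : Phi p w a t = 0 := by
    have := key.symm
    rwa [neg_eq_zero] at this
  obtain ⟨ha0, ht0⟩ := H p hpn w a t hwne hPhi
  refine ⟨?_, ?_, ht0⟩
  · rw [hua, ha0, ht0]; simp
  · rw [hva, ha0, ht0]; simp

end Pool.Agent.Helper54.TS
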