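import Mathlib
import Pool.Agent.Helper54.TSLocal

set_option autoImplicit false

namespace Pool.Agent.Helper54.TS

open Complex ComplexConjugate Topology Metric Module

theorem contDiff_G : ContDiff ℝ ((⊤ : ℕ∞) : WithTop ℕ∞) G := by
  unfold G NC
  have hconj : ContDiff ℝ ((⊤ : ℕ∞) : WithTop ℕ∞) (fun z : ℂ => conj z) := conjCLE.contDiff
  have hre : ContDiff ℝ ((⊤ : ℕ∞) : WithTop ℕ∞) (fun z : ℂ => z.re) := reCLM.contDiff
  have h1 : ContDiff ℝ ((⊤ : ℕ∞) : WithTop ℕ∞) (fun x : E3 => x.1) := contDiff_fst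
  have h2 : ContDiff ℝ ((⊤ : ℕ∞) : WithTop ℕ∞) (fun x : E3 => x.2.1) := contDiff_fst.comp contDiff_snd
  have h3 : ContDiff ℝ ((⊤ : ℕ∞) : WithTop ℕ∞) (fun x : E3 => x.2.2) := contDiff_snd.comp contDiff_snd
  have c1 : ContDiff ℝ ((⊤ : ℕ∞) : WithTop ℕ∞) (fun x : E3 => conj x.1) := hconj.comp h1
  have c2 : ContDiff ℝ ((⊤ : ℕ∞) : WithTop ℕ∞) (fun x : E3 => conj x.2.1) := hconj.comp h2
  have c3 : ContDiff ℝ ((⊤ : ℕ∞) : WithTop ℕ∞) (fun x : E3 => conj x.2.2) := hconj.comp h3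
  have hN := ((h1.mul c1).add (h2.mul c2)).add (h3.mul c3)
  have f0 := (h1.mul h1).add (hN.mul h2)
  have f1 := (contDiff_const (c := (2 : ℂ)).mul (h1.mul h2)).add (hN.mul c3)
  have f2 := ((contDiff_const (c := (2 : ℂ)).mul (h1.mul h3)).add (h2.mul h2)).add
    (hN.mul (contDiff_const (c := I).mul c2))
  have f3 := (contDiff_const (c := (2 : ℂ)).mul (h2.mul h3)).sub (hN.mul c1)
  have f4 := h3.mul h3
  have f5 := hre.comp (c1.mul (h2.mul h2))
  exact f0.prodMk (f1.prodMk (f2.prodMk (f3.prodMk (f4.prodMk f5))))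

theorem fderiv_G (x u : E3) : fderiv ℝ G x u = DG x u := by
  obtain ⟨D, hD, hDu⟩ := hasFDerivAt_G x
  rw [hD.fderiv, hDu]

/-- A smooth totally skew embedding of the six-dimensional space into the
seventeen-dimensional space. -/
theorem exists_embedding_six :
    ∃ f : EuclideanSpace ℝ (Fin 6) → EuclideanSpace ℝ (Fin 17),
      ContDiff ℝ ((⊤ : ℕ∞) : WithTop ℕ∞) f ∧ IsEmbedding f ∧
      ∀ x y, x ≠ y → ∀ (u v : EuclideanSpace ℝ (Fin 6)) (t : ℝ),
        fderiv ℝ f x u + fderiv ℝ f y v + t • (f y - f x) = 0 → u = 0 ∧ v = 0 ∧ t = 0 := by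
  obtain ⟨r, hr, H⟩ := skew_near_zero
  have hfr : finrank ℝ ℂ = 2 := Complex.finrank_real_complex
  let e₁ : EuclideanSpace ℝ (Fin 6) ≃L[ℝ] E3 := ContinuousLinearEquiv.ofFinrankEq (by
    simp [finrank_prod, hfr])
  let e₂ : (E3 × G11) ≃L[ℝ] EuclideanSpace ℝ (Fin 17) := ContinuousLinearEquiv.ofFinrankEq (by
    simp [finrank_prod, hfr])
  -- a small ball
  obtain ⟨r', hr', hr'ball⟩ : ∃ r' > 0, ∀ x : EuclideanSpace ℝ (Fin 6), x ∈ ball 0 r' →
      ‖e₁ x‖ < r := by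
    have hc : Continuous (fun x : EuclideanSpace ℝ (Fin 6) => ‖e₁ x‖) := e₁.continuous.norm
    have h0 : (fun x : EuclideanSpace ℝ (Fin 6) => ‖e₁ x‖) 0 < r := by simpa using hr
    have := (hc.tendsto 0).eventually_lt_const h0
    obtain ⟨r', hr', h⟩ := Metric.eventually_nhds_iff.1 this
    exact ⟨r', hr', fun x hx => h hx⟩
  let β : OpenPartialHomeomorph (EuclideanSpace ℝ (Fin 6)) (EuclideanSpace ℝ (Fin 6)) :=
    OpenPartialHomeomorph.univBall 0 r'
  have hβs : β.source = Set.univ := OpenPartialHomeomorph.univBall_source _ _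
  have hβt : β.target = ball 0 r' := OpenPartialHomeomorph.univBall_target _ hr'
  have hβc : ContDiff ℝ ((⊤ : ℕ∞) : WithTop ℕ∞) β := OpenPartialHomeomorph.contDiff_univBall
  have hβsymm : ContDiffOn ℝ ((⊤ : ℕ∞) : WithTop ℕ∞) β.symm (ball 0 r') := OpenPartialHomeomorph.contDiffOn_univBall_symm
  have hβmem : ∀ x, β x ∈ ball (0 : EuclideanSpace ℝ (Fin 6)) r' := by
    intro x
    rw [← hβt]
    exact β.map_source (by rw [hβs]; trivial)
  have hβinv : ∀ x, β.symm (β x) = x := fun x => β.left_inv (by rw [hβs]; trivial)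
  have hβinj : ∀ x y, β x = β y → x = y := by
    intro x y h
    rw [← hβinv x, ← hβinv y, h]
  have hβder : ∀ x u, fderiv ℝ β x u = 0 → u = 0 := by
    intro x u hu
    have h1 : DifferentiableAt ℝ β.symm (β x) :=
      ((hβsymm.contDiffAt (isOpen_ball.mem_nhds (hβmem x))).differentiableAt (by simp))
    have h2 : DifferentiableAt ℝ β x := hβc.contDiffAt.differentiableAt (by simp)
    have h3 : fderiv ℝ (β.symm ∘ β) x = (fderiv ℝ β.symm (β x)).comp (fderiv ℝ β x) :=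
      fderiv_comp x h1 h2
    have h4 : (β.symm ∘ β) = id := funext hβinv
    rw [h4, fderiv_id] at h3
    have h5 := congrArg (fun D => D u) h3
    simp only [ContinuousLinearMap.comp_apply, hu, map_zero] at h5
    simpa using h5
  let Ξ : E3 → E3 × G11 := fun x => (x, G x)
  have hΞc : ContDiff ℝ ((⊤ : ℕ∞) : WithTop ℕ∞) Ξ := contDiff_id.prodMk contDiff_G
  have hΞder : ∀ x u, fderiv ℝ Ξ x u = (u, DG x u) := by
    intro x u
    have h1 : DifferentiableAt ℝ G x := contDiff_G.contDiffAt.differentiableAt (by simp)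
    have h2 : HasFDerivAt Ξ ((ContinuousLinearMap.id ℝ E3).prod (fderiv ℝ G x)) x :=
      (hasFDerivAt_id x).prodMk h1.hasFDerivAt
    rw [h2.fderiv]
    simp [fderiv_G]
  let f : EuclideanSpace ℝ (Fin 6) → EuclideanSpace ℝ (Fin 17) := fun x => e₂ (Ξ (e₁ (β x)))
  have hfder : ∀ x u, fderiv ℝ f x u
      = e₂ (e₁ (fderiv ℝ β x u), DG (e₁ (β x)) (e₁ (fderiv ℝ β x u))) := by
    intro x u
    have h2 : HasFDerivAt β (fderiv ℝ β x) x :=
      (hβc.contDiffAt.differentiableAt (by simp)).hasFDerivAt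
    have h3 : HasFDerivAt (fun x => e₁ (β x)) ((e₁ : _ →L[ℝ] _).comp (fderiv ℝ β x)) x :=
      e₁.hasFDerivAt.comp x h2
    have h4 : HasFDerivAt Ξ (fderiv ℝ Ξ (e₁ (β x))) (e₁ (β x)) :=
      (hΞc.contDiffAt.differentiableAt (by simp)).hasFDerivAt
    have h5 := h4.comp x h3
    have h6 := e₂.hasFDerivAt.comp x h5
    have h7 : fderiv ℝ f x = _ := h6.fderiv
    rw [h7]
    simp [hΞder]
  refine ⟨f, ?_, ?_, ?_⟩
  · exact e₂.contDiff.comp (hΞc.comp (e₁.contDiff.comp hβc))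
  · have hβe : IsEmbedding β := (β.isOpenEmbedding hβs).isEmbedding
    have hΞe : IsEmbedding Ξ := by
      have hl : Function.LeftInverse (Prod.fst : E3 × G11 → E3) Ξ := fun x => rfl
      exact hl.isEmbedding continuous_fst hΞc.continuous
    exact e₂.toHomeomorph.isEmbedding.comp (hΞe.comp (e₁.toHomeomorph.isEmbedding.comp hβe))
  · intro x y hxy u v t h
    rw [hfder, hfder] at h
    set U := e₁ (fderiv ℝ β x u) with hU
    set V := e₁ (fderiv ℝ β y v) with hV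
    have hXY : e₁ (β x) ≠ e₁ (β y) := fun h => hxy (hβinj x y (e₁.injective h))
    have h' : e₂ ((U, DG (e₁ (β x)) U) + (V, DG (e₁ (β y)) V)
        + t • (Ξ (e₁ (β y)) - Ξ (e₁ (β x)))) = 0 := by
      rw [← h]
      simp only [map_add, map_smul, map_sub]
      rfl
    have h'' := (map_eq_zero_iff e₂ e₂.injective).1 h'
    simp only [Ξ, Prod.mk_sub_mk, Prod.smul_mk, Prod.mk_add_mk, Prod.mk_eq_zero] at h''
    obtain ⟨hU0, hV0, ht⟩ := H (e₁ (β x)) (e₁ (β y)) (hr'ball _ (hβmem x)) (hr'ball _ (hβmem y))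
      hXY U V t h''.1 h''.2
    refine ⟨?_, ?_, ht⟩
    · exact hβder x u ((map_eq_zero_iff e₁ e₁.injective).1 hU0)
    · exact hβder y v ((map_eq_zero_iff e₁ e₁.injective).1 hV0)

end Pool.Agent.Helper54.TS
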