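import Mathlib
import Pool.Agent.Helper54.TSCircle
import Pool.Agent.Helper54.TSEmbed

set_option autoImplicit false

namespace Pool.Agent.Helper54.TS

open Topology Filter Set Module Function
open scoped Manifold

section general

variable {E : Type*} [NormedAddCommGroup E] [NormedSpace ℝ E]
  {H : Type*} [TopologicalSpace H] (I : ModelWithCorners ℝ E H) [I.Boundaryless]
  {M : Type*} [TopologicalSpace M] [ChartedSpace H M]
  {F : Type*} [NormedAddCommGroup F] [NormedSpace ℝ F]

/-- The derivative in the preferred chart. -/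
noncomputable def dch (f : M → F) (p : M) : E →L[ℝ] F :=
  fderiv ℝ (f ∘ (extChartAt I p).symm) (extChartAt I p p)

theorem differentiableAt_chart {f : M → F} {p : M} (hf : MDifferentiableAt I 𝓘(ℝ, F) f p) :
    DifferentiableAt ℝ (f ∘ (extChartAt I p).symm) (extChartAt I p p) := by
  have := (mdifferentiableAt_iff f p).1 hf
  have h2 := this.2
  rw [I.range_eq_univ, differentiableWithinAt_univ] at h2
  simpa only [writtenInExtChartAt, extChartAt_model_space_eq_id, PartialEquiv.refl_coe,
    Function.id_comp] using h2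

theorem dch_comp {F' : Type*} [NormedAddCommGroup F'] [NormedSpace ℝ F'] {ι : M → F} {g : F → F'}
    {p : M} (hι : MDifferentiableAt I 𝓘(ℝ, F) ι p) (hg : DifferentiableAt ℝ g (ι p)) :
    dch I (g ∘ ι) p = (fderiv ℝ g (ι p)).comp (dch I ι p) := by
  have h1 := differentiableAt_chart I hι
  have h2 : (ι ∘ (extChartAt I p).symm) (extChartAt I p p) = ι p := by simp
  have h3 : DifferentiableAt ℝ g ((ι ∘ (extChartAt I p).symm) (extChartAt I p p)) := by
    rw [h2]; exact hg
  unfold dch
  rw [Function.comp_assoc, fderiv_comp _ h3 h1, h2]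

end general

/-- The totally skew condition in terms of charts. -/
def Skew {E : Type*} [NormedAddCommGroup E] [NormedSpace ℝ E]
    {H : Type*} [TopologicalSpace H] (I : ModelWithCorners ℝ E H)
    {M : Type*} [TopologicalSpace M] [ChartedSpace H M]
    {F : Type*} [NormedAddCommGroup F] [NormedSpace ℝ F] (f : M → F) : Prop :=
  ∀ p q : M, p ≠ q → ∀ (u v : E) (t : ℝ),
    fderiv ℝ (f ∘ (extChartAt I p).symm) (extChartAt I p p) u
      + fderiv ℝ (f ∘ (extChartAt I q).symm) (extChartAt I q q) v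
      + t • (f q - f p) = 0 → u = 0 ∧ v = 0 ∧ t = 0

/-- The dimension bound `2 n + 1 ≤ N`. -/
theorem Skew.dim_le {n N : ℕ} {M : Type*} [TopologicalSpace M]
    [ChartedSpace (EuclideanSpace ℝ (Fin n)) M] {f : M → EuclideanSpace ℝ (Fin N)}
    (hf : Skew (𝓡 n) f) (p q : M) (hpq : p ≠ q) : 2 * n + 1 ≤ N := by
  let A : EuclideanSpace ℝ (Fin n) →L[ℝ] EuclideanSpace ℝ (Fin N) := dch (𝓡 n) f p
  let B : EuclideanSpace ℝ (Fin n) →L[ℝ] EuclideanSpace ℝ (Fin N) := dch (𝓡 n) f q
  let L : (EuclideanSpace ℝ (Fin n) × EuclideanSpace ℝ (Fin n) × ℝ) →ₗ[ℝ]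
      EuclideanSpace ℝ (Fin N) :=
    { toFun := fun z => A z.1 + B z.2.1 + z.2.2 • (f q - f p)
      map_add' := by
        intro z z'
        simp only [Prod.fst_add, Prod.snd_add, map_add, add_smul]
        abel
      map_smul' := by
        intro c z
        simp only [Prod.smul_fst, Prod.smul_snd, map_smul, RingHom.id_apply, smul_add, smul_eq_mul,
          mul_smul] }
  have hinj : Injective L := by
    rw [injective_iff_map_eq_zero]
    rintro ⟨u, v, t⟩ h
    obtain ⟨h1, h2, h3⟩ := hf p q hpq u v t h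
    simp [h1, h2, h3]
  have := LinearMap.finrank_le_finrank_of_injective hinj
  simp [finrank_prod] at this
  omega

section circle

theorem circleExp_chart_differentiableAt (t : ℝ) :
    DifferentiableAt ℝ (fun s => extChartAt (𝓡 1) (Circle.exp t) (Circle.exp s)) t := by
  have hexp : ContMDiff 𝓘(ℝ, ℝ) (𝓡 1) 1 Circle.exp := contMDiff_circleExp
  have hch : ContMDiffAt (𝓡 1) 𝓘(ℝ, EuclideanSpace ℝ (Fin 1)) 1
      (extChartAt (𝓡 1) (Circle.exp t)) (Circle.exp t) :=
    contMDiffAt_extChartAt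
  have hcomp : ContMDiffAt 𝓘(ℝ, ℝ) 𝓘(ℝ, EuclideanSpace ℝ (Fin 1)) 1
      (fun s => extChartAt (𝓡 1) (Circle.exp t) (Circle.exp s)) t :=
    ContMDiffAt.comp t hch (hexp t)
  exact (contMDiffAt_iff_contDiffAt.1 hcomp).differentiableAt (by simp)

/-- velocity of the exponential in the preferred chart -/
noncomputable def wexp (t : ℝ) : EuclideanSpace ℝ (Fin 1) :=
  deriv (fun s => extChartAt (𝓡 1) (Circle.exp t) (Circle.exp s)) t

theorem hasDerivAt_comp_exp (t : ℝ) {F : Type*} [NormedAddCommGroup F] [NormedSpace ℝ F]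
    (g : Circle → F) (hg : MDifferentiableAt (𝓡 1) 𝓘(ℝ, F) g (Circle.exp t)) :
    HasDerivAt (fun s => g (Circle.exp s)) (dch (𝓡 1) g (Circle.exp t) (wexp t)) t := by
  have hder := (circleExp_chart_differentiableAt t).hasDerivAt
  have h1 := (differentiableAt_chart (𝓡 1) hg).hasFDerivAt
  have h2 : HasDerivAt (fun s => (g ∘ (extChartAt (𝓡 1) (Circle.exp t)).symm)
      (extChartAt (𝓡 1) (Circle.exp t) (Circle.exp s)))
      (dch (𝓡 1) g (Circle.exp t) (wexp t)) t := by
    have h1' : HasFDerivAt (g ∘ (extChartAt (𝓡 1) (Circle.exp t)).symm)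
        (dch (𝓡 1) g (Circle.exp t))
        (extChartAt (𝓡 1) (Circle.exp t) (Circle.exp t)) := h1
    exact h1'.comp_hasDerivAt t hder
  refine h2.congr_of_eventuallyEq ?_
  have hcont : ContinuousAt Circle.exp t := Circle.exp.continuous.continuousAt
  have hsrc : (extChartAt (𝓡 1) (Circle.exp t)).source ∈ 𝓝 (Circle.exp t) :=
    extChartAt_source_mem_nhds _
  filter_upwards [hcont.preimage_mem_nhds hsrc] with s hs
  simp only [Function.comp_apply]
  rw [(extChartAt (𝓡 1) (Circle.exp t)).left_inv hs]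

theorem mdifferentiableAt_circle_coe (z : Circle) :
    MDifferentiableAt (𝓡 1) 𝓘(ℝ, ℂ) (fun z : Circle => (z : ℂ)) z := by
  have : Fact (finrank ℝ ℂ = 1 + 1) := finrank_real_complex_fact'
  have : ContMDiff (𝓡 1) 𝓘(ℝ, ℂ) 1 (fun z : Circle => (z : ℂ)) := by
    exact contMDiff_coe_sphere
  exact (this z).mdifferentiableAt (by simp)

theorem wexp_ne_zero (t : ℝ) : wexp t ≠ 0 := by
  intro h
  have h1 := hasDerivAt_comp_exp t (fun z : Circle => (z : ℂ))
    (mdifferentiableAt_circle_coe _)
  rw [h, map_zero] at h1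
  have h2 : HasDerivAt (fun s : ℝ => ((Circle.exp s : Circle) : ℂ))
      (Complex.exp (t * Complex.I) * Complex.I) t := by
    have h3 : HasDerivAt (fun s : ℝ => (s : ℂ) * Complex.I) (1 * Complex.I) t :=
      (Complex.ofRealCLM.hasDerivAt).mul_const Complex.I
    have h4 := h3.cexp
    simpa using h4
  have h5 := h1.unique h2
  have h6 : Complex.exp (t * Complex.I) * Complex.I ≠ 0 :=
    mul_ne_zero (Complex.exp_ne_zero _) Complex.I_ne_zero
  exact h6 h5.symm

/-- A totally skew embedding of the circle needs at least four dimensions. -/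
theorem circle_bound {a : ℕ} {g : Circle → EuclideanSpace ℝ (Fin a)}
    (hg : ContMDiff (𝓡 1) (𝓡 a) ((⊤ : ℕ∞) : WithTop ℕ∞) g) (hsk : Skew (𝓡 1) g) : 4 ≤ a := by
  have hpi := Real.pi_pos
  have hinjexp : ∀ s c : ℝ, s < c → c < s + 2 * Real.pi → Circle.exp c ≠ Circle.exp s := by
    intro s c h1 h2 h3
    rw [Circle.exp_eq_exp] at h3
    obtain ⟨m, hm⟩ := h3
    have h4 : 0 < (m : ℝ) := by
      by_contra h
      push Not at h
      nlinarith
    have h5 : (m : ℝ) < 1 := by
      by_contra h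
      push Not at h
      nlinarith
    have h6 : 0 < m := by exact_mod_cast h4
    have h7 : m < 1 := by exact_mod_cast h5
    omega
  have h3 : 2 * 1 + 1 ≤ a := hsk.dim_le (Circle.exp Real.pi) (Circle.exp 0)
    (hinjexp 0 Real.pi hpi (by linarith))
  by_contra hlt
  have ha : a = 3 := by omega
  subst ha
  have hmd : ∀ z, MDifferentiableAt (𝓡 1) 𝓘(ℝ, EuclideanSpace ℝ (Fin 3)) g z := fun z =>
    (hg z).mdifferentiableAt (by simp)
  have hder : ∀ t, HasDerivAt (fun s => g (Circle.exp s))
      (dch (𝓡 1) g (Circle.exp t) (wexp t)) t := fun t => hasDerivAt_comp_exp t g (hmd _)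
  have hexp : ContMDiff 𝓘(ℝ, ℝ) (𝓡 1) ((⊤ : ℕ∞) : WithTop ℕ∞) Circle.exp := contMDiff_circleExp
  have hsm : ContDiff ℝ ((⊤ : ℕ∞) : WithTop ℕ∞) (fun s => g (Circle.exp s)) := by
    rw [← contMDiff_iff_contDiff]
    exact hg.comp hexp
  have hdd : Differentiable ℝ (fun t => dch (𝓡 1) g (Circle.exp t) (wexp t)) := by
    have h1 : (fun t => dch (𝓡 1) g (Circle.exp t) (wexp t))
        = deriv (fun s => g (Circle.exp s)) := by
      funext t
      exact (hder t).deriv.symm
    rw [h1]
    exact (contDiff_infty_iff_deriv.1 hsm).2.differentiable (by simp)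
  have hne : ∀ t, ∃ q : Circle, Circle.exp t ≠ q := fun t =>
    ⟨Circle.exp (t + Real.pi), (hinjexp t (t + Real.pi) (by linarith) (by linarith)).symm⟩
  obtain ⟨s, c, hsc, hcs, α, β, τ, hα, h⟩ := circle_core (V := EuclideanSpace ℝ (Fin 3))
    (by simp) (fun s => g (Circle.exp s)) _ hder hdd
    (fun t => by simp only [Circle.exp_add_two_pi])
    (fun s c h1 h2 h3 => by
      have h4 := hsk (Circle.exp c) (Circle.exp s) (hinjexp s c h1 h2) 0 0 1 (by
        simp only [map_zero, zero_add, one_smul]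
        exact sub_eq_zero.2 h3.symm)
      exact one_ne_zero h4.2.2)
    (fun t h0 => by
      obtain ⟨q, hq⟩ := hne t
      have h4 := hsk (Circle.exp t) q hq (wexp t) 0 0 (by
        have : fderiv ℝ (g ∘ (extChartAt (𝓡 1) (Circle.exp t)).symm)
          (extChartAt (𝓡 1) (Circle.exp t) (Circle.exp t)) (wexp t) = 0 := h0
        rw [this]
        simp)
      exact wexp_ne_zero t h4.1)
  have h4 := hsk (Circle.exp s) (Circle.exp c) (hinjexp s c hsc hcs).symm
    (β • wexp s) (α • wexp c) τ (by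
      rw [map_smul, map_smul]
      have h5 : α • dch (𝓡 1) g (Circle.exp c) (wexp c)
        + β • dch (𝓡 1) g (Circle.exp s) (wexp s)
        + τ • (g (Circle.exp c) - g (Circle.exp s)) = 0 := h
      unfold dch at h5
      rw [← h5]
      abel)
  have h6 := h4.2.1
  rw [smul_eq_zero] at h6
  rcases h6 with h6 | h6
  · exact hα h6
  · exact wexp_ne_zero c h6

instance : IsManifold (𝓡 1) ((⊤ : ℕ∞) : WithTop ℕ∞) Circle :=
  IsManifold.of_le (n := ⊤) le_top

instance : SecondCountableTopology Circle :=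
  inferInstance

end circle

end Pool.Agent.Helper54.TS
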