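import Mathlib
import Pool.Agent.Helper54.TSManifold

set_option autoImplicit false

namespace Pool.Agent.Helper54.TS

open Topology Filter Set Module Function
open scoped Manifold

theorem isEmbedding_of_leftInv {X Y Z : Type*} [TopologicalSpace X] [TopologicalSpace Y]
    [TopologicalSpace Z] {ι : X → Y} {κ : X → Z} {Θ : Y → Z} (hκ : IsEmbedding κ)
    (hι : Continuous ι) (hΘ : ∀ x, ContinuousAt Θ (ι x)) (h : ∀ x, Θ (ι x) = κ x) :
    IsEmbedding ι := by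
  refine ⟨isInducing_iff_nhds.2 fun x => le_antisymm (hι.tendsto x).le_comap ?_,
    fun x y hxy => hκ.injective (by rw [← h, ← h, hxy])⟩
  rw [hκ.nhds_eq_comap]
  have h1 : comap ι (𝓝 (ι x)) ≤ comap ι (comap Θ (𝓝 (Θ (ι x)))) :=
    comap_mono (hΘ x).tendsto.le_comap
  rw [comap_comap, h x] at h1
  have h2 : Θ ∘ ι = κ := funext h
  rwa [h2] at h1

noncomputable def eOne (k : ℕ) :
    EuclideanSpace ℝ (Fin (k + 1)) ≃L[ℝ] ℝ × EuclideanSpace ℝ (Fin k) :=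
  ContinuousLinearEquiv.ofFinrankEq (by simp [finrank_prod]; ring)

noncomputable def eTwo (k : ℕ) :
    EuclideanSpace ℝ (Fin (k + 2)) ≃L[ℝ] ℂ × EuclideanSpace ℝ (Fin k) :=
  ContinuousLinearEquiv.ofFinrankEq (by
    simp [finrank_prod, Complex.finrank_real_complex]; ring)

/-- the inclusion of the cylinder -/
def kap (k : ℕ) (p : Circle × EuclideanSpace ℝ (Fin (k + 1))) :
    ℂ × EuclideanSpace ℝ (Fin (k + 1)) := ((p.1 : ℂ), p.2)

noncomputable def Psi (k : ℕ) (x : ℂ × EuclideanSpace ℝ (Fin (k + 1))) :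
    EuclideanSpace ℝ (Fin (k + 2)) :=
  (eTwo k).symm (Real.exp (eOne k x.2).1 • x.1, (eOne k x.2).2)

noncomputable def Theta (k : ℕ) (x : EuclideanSpace ℝ (Fin (k + 2))) :
    ℂ × EuclideanSpace ℝ (Fin (k + 1)) :=
  (‖(eTwo k x).1‖⁻¹ • (eTwo k x).1, (eOne k).symm (Real.log ‖(eTwo k x).1‖, (eTwo k x).2))

theorem eTwo_Psi_kap (k : ℕ) (p : Circle × EuclideanSpace ℝ (Fin (k + 1))) :
    (eTwo k (Psi k (kap k p))).1 = Real.exp (eOne k p.2).1 • (p.1 : ℂ) := by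
  simp [Psi, kap]

theorem norm_eTwo_Psi_kap (k : ℕ) (p : Circle × EuclideanSpace ℝ (Fin (k + 1))) :
    ‖(eTwo k (Psi k (kap k p))).1‖ = Real.exp (eOne k p.2).1 := by
  rw [eTwo_Psi_kap, norm_smul, Circle.norm_coe, mul_one, Real.norm_eq_abs, Real.abs_exp]

theorem Theta_Psi_kap (k : ℕ) (p : Circle × EuclideanSpace ℝ (Fin (k + 1))) :
    Theta k (Psi k (kap k p)) = kap k p := by
  unfold Theta
  rw [norm_eTwo_Psi_kap, eTwo_Psi_kap, smul_smul, inv_mul_cancel₀ (Real.exp_pos _).ne', one_smul,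
    Real.log_exp]
  simp [Psi, kap]

theorem Theta_differentiableAt (k : ℕ) (x : EuclideanSpace ℝ (Fin (k + 2)))
    (hx : (eTwo k x).1 ≠ 0) : DifferentiableAt ℝ (Theta k) x := by
  have h1 : DifferentiableAt ℝ (fun x => (eTwo k x).1) x :=
    (eTwo k).differentiable.fst x
  have h1' : DifferentiableAt ℝ (fun x => (eTwo k x).2) x :=
    (eTwo k).differentiable.snd x
  have h2 : DifferentiableAt ℝ (fun x => ‖(eTwo k x).1‖) x := h1.norm ℝ hx
  have h3 : ‖(eTwo k x).1‖ ≠ 0 := norm_ne_zero_iff.2 hx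
  have h4 : DifferentiableAt ℝ (fun x => ‖(eTwo k x).1‖⁻¹ • (eTwo k x).1) x :=
    (h2.inv h3).smul h1
  have h5 : DifferentiableAt ℝ (fun x => (Real.log ‖(eTwo k x).1‖, (eTwo k x).2)) x :=
    (h2.log h3).prodMk h1'
  have h6 : DifferentiableAt ℝ
      (fun x => (eOne k).symm (Real.log ‖(eTwo k x).1‖, (eTwo k x).2)) x :=
    ((eOne k).symm.differentiable _).comp x h5
  exact h4.prodMk h6

theorem Psi_contDiff (k : ℕ) : ContDiff ℝ ((⊤ : ℕ∞) : WithTop ℕ∞) (Psi k) := by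
  have h1 : ContDiff ℝ ((⊤ : ℕ∞) : WithTop ℕ∞)
      (fun x : ℂ × EuclideanSpace ℝ (Fin (k + 1)) => eOne k x.2) :=
    (eOne k).contDiff.comp contDiff_snd
  have h2 : ContDiff ℝ ((⊤ : ℕ∞) : WithTop ℕ∞)
      (fun x : ℂ × EuclideanSpace ℝ (Fin (k + 1)) =>
        (Real.exp (eOne k x.2).1 • x.1, (eOne k x.2).2)) :=
    (((contDiff_fst.comp h1).exp).smul contDiff_fst).prodMk (contDiff_snd.comp h1)
  exact (eTwo k).symm.contDiff.comp h2

theorem kap_contMDiff (k : ℕ) :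
    ContMDiff ((𝓡 1).prod (𝓡 (k + 1))) 𝓘(ℝ, ℂ × EuclideanSpace ℝ (Fin (k + 1)))
      ((⊤ : ℕ∞) : WithTop ℕ∞) (kap k) := by
  have : Fact (finrank ℝ ℂ = 1 + 1) := finrank_real_complex_fact'
  have h1 : ContMDiff (𝓡 1) 𝓘(ℝ, ℂ) ((⊤ : ℕ∞) : WithTop ℕ∞) (fun z : Circle => (z : ℂ)) := by
    exact contMDiff_coe_sphere
  have h2 : ContMDiff ((𝓡 1).prod (𝓡 (k + 1))) 𝓘(ℝ, ℂ) ((⊤ : ℕ∞) : WithTop ℕ∞)
      (fun p : Circle × EuclideanSpace ℝ (Fin (k + 1)) => (p.1 : ℂ)) :=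
    h1.comp contMDiff_fst
  exact h2.prodMk_space contMDiff_snd

theorem kap_isEmbedding (k : ℕ) : IsEmbedding (kap k) := by
  have h1 : IsEmbedding (fun z : Circle => (z : ℂ)) := IsEmbedding.subtypeVal
  exact h1.prodMap IsEmbedding.id

theorem cyl_isEmbedding (k : ℕ) : IsEmbedding (Psi k ∘ kap k) := by
  refine isEmbedding_of_leftInv (κ := kap k) (Θ := Theta k) (kap_isEmbedding k) ?_ ?_ ?_
  · exact (Psi_contDiff k).continuous.comp (kap_isEmbedding k).continuous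
  · intro p
    refine (Theta_differentiableAt k _ ?_).continuousAt
    have := norm_eTwo_Psi_kap k p
    intro h
    simp only [comp_apply] at h
    rw [h, norm_zero] at this
    exact (Real.exp_pos _).ne this
  · exact Theta_Psi_kap k

theorem dch_coe_injective (z : Circle) :
    Injective (dch (𝓡 1) (fun z : Circle => (z : ℂ)) z) := by
  obtain ⟨t, rfl⟩ := Circle.exp_surjective z
  have h1 := hasDerivAt_comp_exp t (fun z : Circle => (z : ℂ))
    (mdifferentiableAt_circle_coe _)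
  have h2 : HasDerivAt (fun s : ℝ => ((Circle.exp s : Circle) : ℂ))
      (Complex.exp (t * Complex.I) * Complex.I) t := by
    have h3 : HasDerivAt (fun s : ℝ => (s : ℂ) * Complex.I) (1 * Complex.I) t :=
      (Complex.ofRealCLM.hasDerivAt).mul_const Complex.I
    have h4 := h3.cexp
    simpa using h4
  have h5 := h1.unique h2
  have h6 : Complex.exp (t * Complex.I) * Complex.I ≠ 0 :=
    mul_ne_zero (Complex.exp_ne_zero _) Complex.I_ne_zero
  rw [injective_iff_map_eq_zero]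
  intro u hu
  have hfr : finrank ℝ (EuclideanSpace ℝ (Fin 1)) = 1 := by simp
  obtain ⟨c, hc⟩ := (finrank_eq_one_iff_of_nonzero' (wexp t) (wexp_ne_zero t)).1 hfr u
  rw [← hc, map_smul, h5, smul_eq_zero] at hu
  rcases hu with hu | hu
  · rw [← hc, hu, zero_smul]
  · exact absurd hu h6

theorem dch_kap_injective (k : ℕ) (p : Circle × EuclideanSpace ℝ (Fin (k + 1))) :
    Injective (dch ((𝓡 1).prod (𝓡 (k + 1))) (kap k) p) := by
  obtain ⟨z, y⟩ := p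
  have h0 := (differentiableAt_chart (𝓡 1) (mdifferentiableAt_circle_coe z)).hasFDerivAt
  have h1 : HasFDerivAt (kap k ∘ (extChartAt ((𝓡 1).prod (𝓡 (k + 1))) (z, y)).symm)
      ((dch (𝓡 1) (fun z : Circle => (z : ℂ)) z).prodMap
        (ContinuousLinearMap.id ℝ (EuclideanSpace ℝ (Fin (k + 1)))))
      (extChartAt ((𝓡 1).prod (𝓡 (k + 1))) (z, y) (z, y)) := by
    have h2 := HasFDerivAt.prodMap (p := (extChartAt (𝓡 1) z z, y)) h0
      (hasFDerivAt_id (𝕜 := ℝ) (E := EuclideanSpace ℝ (Fin (k + 1))) y)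
    simp only [extChartAt_prod]
    exact h2
  have h3 : dch ((𝓡 1).prod (𝓡 (k + 1))) (kap k) (z, y)
      = (dch (𝓡 1) (fun z : Circle => (z : ℂ)) z).prodMap
        (ContinuousLinearMap.id ℝ (EuclideanSpace ℝ (Fin (k + 1)))) := h1.fderiv
  rw [h3]
  rintro ⟨u, v⟩ ⟨u', v'⟩ h
  have ha : dch (𝓡 1) (fun z : Circle => (z : ℂ)) z u
      = dch (𝓡 1) (fun z : Circle => (z : ℂ)) z u' := congrArg Prod.fst h
  have hb : v = v' := congrArg Prod.snd h
  exact Prod.ext (dch_coe_injective z ha) hb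

theorem dch_cyl_injective (k : ℕ) (p : Circle × EuclideanSpace ℝ (Fin (k + 1))) :
    Injective (dch ((𝓡 1).prod (𝓡 (k + 1))) (Psi k ∘ kap k) p) := by
  have hsm : ContMDiff ((𝓡 1).prod (𝓡 (k + 1))) 𝓘(ℝ, EuclideanSpace ℝ (Fin (k + 2)))
      ((⊤ : ℕ∞) : WithTop ℕ∞) (Psi k ∘ kap k) :=
    (Psi_contDiff k).contMDiff.comp (kap_contMDiff k)
  have h1 : MDifferentiableAt ((𝓡 1).prod (𝓡 (k + 1))) 𝓘(ℝ, EuclideanSpace ℝ (Fin (k + 2)))
      (Psi k ∘ kap k) p := (hsm p).mdifferentiableAt (by simp)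
  have h2 : DifferentiableAt ℝ (Theta k) ((Psi k ∘ kap k) p) := by
    refine Theta_differentiableAt k _ ?_
    have := norm_eTwo_Psi_kap k p
    intro h
    simp only [comp_apply] at h
    rw [h, norm_zero] at this
    exact (Real.exp_pos _).ne this
  have h3 := dch_comp ((𝓡 1).prod (𝓡 (k + 1))) h1 h2
  have h4 : Theta k ∘ (Psi k ∘ kap k) = kap k := funext (Theta_Psi_kap k)
  rw [h4] at h3
  have h5 := dch_kap_injective k p
  rw [h3] at h5
  rw [ContinuousLinearMap.coe_comp] at h5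
  exact h5.of_comp

/-- `EuclideanSpace ℝ (Fin j)` has a totally skew embedding in `N`-space. -/
def PE (j N : ℕ) : Prop :=
  ∃ f : EuclideanSpace ℝ (Fin j) → EuclideanSpace ℝ (Fin N),
    ContDiff ℝ ((⊤ : ℕ∞) : WithTop ℕ∞) f ∧ IsEmbedding f ∧
    ∀ x y, x ≠ y → ∀ (u v : EuclideanSpace ℝ (Fin j)) (t : ℝ),
      fderiv ℝ f x u + fderiv ℝ f y v + t • (f y - f x) = 0 → u = 0 ∧ v = 0 ∧ t = 0

theorem dch_self {j : ℕ} {F : Type*} [NormedAddCommGroup F] [NormedSpace ℝ F]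
    (f : EuclideanSpace ℝ (Fin j) → F) (x : EuclideanSpace ℝ (Fin j)) :
    dch (𝓡 j) f x = fderiv ℝ f x := by
  unfold dch
  simp only [extChartAt_model_space_eq_id, PartialEquiv.refl_coe, PartialEquiv.refl_symm,
    Function.comp_id, id]

theorem PE.cyl {k N : ℕ} (h : PE (k + 2) N) :
    ∃ f : Circle × EuclideanSpace ℝ (Fin (k + 1)) → EuclideanSpace ℝ (Fin N),
      ContMDiff ((𝓡 1).prod (𝓡 (k + 1))) (𝓡 N) ((⊤ : ℕ∞) : WithTop ℕ∞) f ∧ IsEmbedding f ∧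
      Skew ((𝓡 1).prod (𝓡 (k + 1))) f := by
  obtain ⟨f, hf, hemb, hsk⟩ := h
  have hsm : ContMDiff ((𝓡 1).prod (𝓡 (k + 1))) 𝓘(ℝ, EuclideanSpace ℝ (Fin (k + 2)))
      ((⊤ : ℕ∞) : WithTop ℕ∞) (Psi k ∘ kap k) :=
    (Psi_contDiff k).contMDiff.comp (kap_contMDiff k)
  have hd : ∀ p, dch ((𝓡 1).prod (𝓡 (k + 1))) (f ∘ (Psi k ∘ kap k)) p
      = (fderiv ℝ f ((Psi k ∘ kap k) p)).comp
        (dch ((𝓡 1).prod (𝓡 (k + 1))) (Psi k ∘ kap k) p) := fun p =>
    dch_comp ((𝓡 1).prod (𝓡 (k + 1))) ((hsm p).mdifferentiableAt (by simp))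
      ((hf.differentiable (by simp)) _)
  refine ⟨f ∘ (Psi k ∘ kap k), hf.contMDiff.comp hsm, hemb.comp (cyl_isEmbedding k), ?_⟩
  intro p q hpq u v t heq
  have h1 : dch ((𝓡 1).prod (𝓡 (k + 1))) (f ∘ (Psi k ∘ kap k)) p u
    + dch ((𝓡 1).prod (𝓡 (k + 1))) (f ∘ (Psi k ∘ kap k)) q v
    + t • ((f ∘ (Psi k ∘ kap k)) q - (f ∘ (Psi k ∘ kap k)) p) = 0 := heq
  rw [hd, hd] at h1
  obtain ⟨h2, h3, h4⟩ := hsk _ _ (fun h => hpq ((cyl_isEmbedding k).injective h)) _ _ _ h1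
  refine ⟨dch_cyl_injective k p ?_, dch_cyl_injective k q ?_, h4⟩
  · exact h2.trans (map_zero _).symm
  · exact h3.trans (map_zero _).symm

theorem PE.one_le {b : ℕ} (h : PE 1 b) : 3 ≤ b := by
  obtain ⟨f, hf, hemb, hsk⟩ := h
  have hs : Skew (𝓡 1) f := by
    intro p q hpq u v t heq
    have h1 : dch (𝓡 1) f p u + dch (𝓡 1) f q v + t • (f q - f p) = 0 := heq
    rw [dch_self, dch_self] at h1
    exact hsk p q hpq u v t h1
  obtain ⟨p, q, hpq⟩ := exists_pair_ne (EuclideanSpace ℝ (Fin 1))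
  exact hs.dim_le p q hpq

end Pool.Agent.Helper54.TS
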